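import Mathlib

/-! Chains modulo the orbits of a group with compact orbits give chains. -/

set_option autoImplicit false

open scoped Topology
open Set Filter

namespace Pool.Agent.R775.HL

universe u

variable {N : Type u} [TopologicalSpace N] {G : Type} [Group G] [TopologicalSpace G]

/-- orbits of a continuous action on `O`, permuted by `F` -/
structure Orbs (O : Set N) (act : G → N → N) (F : N → N) : Prop where
  isOpen : IsOpen O
  maps : ∀ g, ∀ y ∈ O, act g y ∈ O
  one : ∀ y ∈ O, act 1 y = y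
  mul : ∀ g h, ∀ y ∈ O, act (g * h) y = act g (act h y)
  cont : ContinuousOn (fun p : G × N => act p.1 p.2) (univ ×ˢ O)
  orb : ∀ y ∈ O, ∀ g, ∃ g', F (act g y) = act g' (F y)

lemma Orbs.contAt {O : Set N} {act : G → N → N} {F : N → N} (h : Orbs O act F) {c : G} {x : N}
    (hx : x ∈ O) : ContinuousAt (fun p : G × N => act p.1 p.2) (c, x) :=
  h.cont.continuousAt ((isOpen_univ.prod h.isOpen).mem_nhds ⟨mem_univ _, hx⟩)

/-- uniform control of a compact set of translations near the diagonal -/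
lemma tube {X : Type*} [PseudoMetricSpace X] {O K : Set N} {act : G → N → N} {F : N → N}
    (h : Orbs O act F) (hK : IsClosed K) (hKO : K ⊆ O) {C : Set G} (hC : IsCompact C)
    {d : N → X} (hd : Continuous d) {η : ℝ} (hη : 0 < η) :
    ∃ W : Set (N × N), IsOpen W ∧ (∀ x, (x, x) ∈ W) ∧
      ∀ p q, (p, q) ∈ W → p ∈ K → ∀ c ∈ C, dist (d (act c p)) (d (act c q)) < η := by
  let P : Set (N × N) := {w | w.1 ∈ K → ∀ c ∈ C, dist (d (act c w.1)) (d (act c w.2)) < η}
  have hP : ∀ x : N, P ∈ 𝓝 (x, x) := by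
    intro x
    by_cases hx : x ∈ K
    · have h1 : ∀ᶠ w : N × N in 𝓝 (x, x), ∀ c ∈ C, dist (d (act c w.1)) (d (act c w.2)) < η := by
        refine hC.eventually_forall_of_forall_eventually fun c _ => ?_
        have h2 : ContinuousAt (fun w : (N × N) × G => (act w.2 w.1.1, act w.2 w.1.2))
            ((x, x), c) := by
          have e1 : ContinuousAt (fun w : (N × N) × G => (w.2, w.1.1)) ((x, x), c) := by fun_prop
          have e2 : ContinuousAt (fun w : (N × N) × G => (w.2, w.1.2)) ((x, x), c) := by fun_prop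
          have e3 : ContinuousAt (fun w : (N × N) × G => act w.2 w.1.1) ((x, x), c) :=
            ContinuousAt.comp (g := fun p : G × N => act p.1 p.2)
              (f := fun w : (N × N) × G => (w.2, w.1.1)) (h.contAt (hKO hx)) e1
          have e4 : ContinuousAt (fun w : (N × N) × G => act w.2 w.1.2) ((x, x), c) :=
            ContinuousAt.comp (g := fun p : G × N => act p.1 p.2)
              (f := fun w : (N × N) × G => (w.2, w.1.2)) (h.contAt (hKO hx)) e2
          exact e3.prodMk e4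
        have h3 : Continuous (fun w : N × N => dist (d w.1) (d w.2)) :=
          (hd.comp continuous_fst).dist (hd.comp continuous_snd)
        have h4 := (h3.continuousAt (x := (act c x, act c x))).comp
          (f := fun w : (N × N) × G => (act w.2 w.1.1, act w.2 w.1.2)) h2
        have h5 : Tendsto (fun w : (N × N) × G => dist (d (act w.2 w.1.1)) (d (act w.2 w.1.2)))
            (𝓝 ((x, x), c)) (𝓝 (dist (d (act c x)) (d (act c x)))) := h4
        rw [dist_self] at h5
        exact h5.eventually (gt_mem_nhds hη)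
      filter_upwards [h1] with w hw _ using hw
    · have h1 : ∀ᶠ w : N × N in 𝓝 (x, x), w.1 ∈ Kᶜ :=
        (continuous_fst.tendsto (x, x)).eventually (hK.isOpen_compl.mem_nhds hx)
      filter_upwards [h1] with w hw h2
      exact absurd h2 hw
  refine ⟨interior P, isOpen_interior, fun x => mem_interior_iff_mem_nhds.2 (hP x),
    fun p q hpq hp c hc => interior_subset hpq hp c hc⟩

/-- two close points in a sequence with values in a compact set -/
lemma close_pair {X : Type*} [PseudoMetricSpace X] {S : Set X} (hS : IsCompact S) {u : ℕ → X}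
    (hu : ∀ t, u t ∈ S) {η : ℝ} (hη : 0 < η) : ∃ s t, s < t ∧ dist (u t) (u s) < η := by
  obtain ⟨a, _, φ, hφ, ha⟩ := hS.tendsto_subseq hu
  have h1 := (ha.eventually (Metric.ball_mem_nhds a (half_pos hη)))
  obtain ⟨M, hM⟩ := eventually_atTop.1 h1
  refine ⟨φ M, φ (M + 1), hφ (Nat.lt_succ_self M), ?_⟩
  have e1 := Metric.mem_ball.1 (hM M le_rfl)
  have e2 := Metric.mem_ball.1 (hM (M + 1) (Nat.le_succ M))
  have e3 := dist_triangle_right (u (φ (M + 1))) (u (φ M)) a
  simp only [Function.comp_apply] at e1 e2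
  linarith

/-- **A chain modulo the orbits gives a closed chain through a point of the orbit.** -/
theorem chain {X : Type*} [PseudoMetricSpace X] [CompactSpace N] {O K : Set N} {act : G → N → N}
    {F : N → N} (h : Orbs O act F) (hK : IsClosed K) (hKO : K ⊆ O) (hinv : ∀ x ∈ K, F x ∈ K)
    (hsat : ∀ x ∈ K, ∀ g, act g x ∈ K) {C : Set G} (hC : IsCompact C)
    (hCK : ∀ x ∈ K, ∀ g, ∃ c ∈ C, act g x = act c x) {d : N → X} (hd : Continuous d) {z : N}
    (hz : ∀ W : Set (N × N), IsOpen W → (∀ x, (x, x) ∈ W) →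
      ∃ (m : ℕ) (x : ℕ → N), 1 ≤ m ∧ x 0 = z ∧ x m = z ∧ (∀ i ≤ m, x i ∈ K) ∧
        ∀ i < m, ∃ g, (act g (F (x i)), x (i + 1)) ∈ W) {δ : ℝ} (hδ : 0 < δ) :
    ∃ (n : ℕ) (x : ℕ → N), 1 ≤ n ∧ (∀ i, x i ∈ K) ∧ (∀ i, i + 1 < n → dist (d (x (i + 1)))
      (d (F (x i))) < δ) ∧ dist (d (x 0)) (d (F (x (n - 1)))) < δ ∧ ∃ c ∈ C, x 0 = act c z := by
  obtain ⟨W, hW, hWd, hWC⟩ := tube h hK hKO hC hd (half_pos hδ)
  obtain ⟨m, X₀, hm, hX0, hXm, hXK, hXW⟩ := hz W hW hWd
  -- the periodic extension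
  have hmod : ∀ j, ∃ g, (act g (F (X₀ (j % m))), X₀ ((j + 1) % m)) ∈ W := by
    intro j
    have h1 : j % m < m := Nat.mod_lt _ (by omega)
    obtain ⟨g, hg⟩ := hXW (j % m) h1
    refine ⟨g, ?_⟩
    have h2 : X₀ ((j + 1) % m) = X₀ (j % m + 1) := by
      rw [Nat.add_mod_eq_ite]
      rcases Nat.lt_or_ge 1 m with h3 | h3
      · rw [Nat.mod_eq_of_lt h3]
        split_ifs with h4
        · have h5 : j % m + 1 = m := by omega
          rw [h5, Nat.sub_self, hX0, hXm]
        · rfl
      · have h3 : m = 1 := by omega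
        subst h3
        simp only [Nat.mod_one, zero_add]
        norm_num
        rw [hX0, hXm]
    rw [h2]
    exact hg
  have hKmod : ∀ j, X₀ (j % m) ∈ K := fun j => hXK _ (Nat.mod_lt _ (by omega)).le
  have hzK : z ∈ K := by rw [← hX0]; exact hXK 0 (Nat.zero_le _)
  -- one step
  have hstep : ∀ (j : ℕ) (c : C), ∃ c' : C,
      dist (d (act c'.1 (X₀ ((j + 1) % m)))) (d (F (act c.1 (X₀ (j % m))))) < δ / 2 := by
    intro j c
    obtain ⟨g, hg⟩ := hmod j
    obtain ⟨g', hg'⟩ := h.orb _ (hKO (hKmod j)) c.1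
    have hFK := hinv _ (hKmod j)
    have hu : act g (F (X₀ (j % m))) ∈ K := hsat _ hFK g
    obtain ⟨c', hc', he⟩ := hCK _ hu (g' * g⁻¹)
    refine ⟨⟨c', hc'⟩, ?_⟩
    have e1 : F (act c.1 (X₀ (j % m))) = act c' (act g (F (X₀ (j % m)))) := by
      rw [← he, ← h.mul _ _ _ (hKO hFK), inv_mul_cancel_right, hg']
    rw [e1, dist_comm]
    exact hWC _ _ hg hu c' hc'
  choose nx hnx using hstep
  obtain ⟨c₀, hc₀, hc₀z⟩ := hCK z hzK 1
  let c : ℕ → C := fun j => Nat.rec ⟨c₀, hc₀⟩ (fun j c => nx j c) j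
  have hcs : ∀ j, c (j + 1) = nx j (c j) := fun j => rfl
  obtain ⟨w, hw⟩ : ∃ w : ℕ → N, ∀ j, w j = act (c j).1 (X₀ (j % m)) := ⟨_, fun _ => rfl⟩
  have hwK : ∀ j, w j ∈ K := fun j => by rw [hw]; exact hsat _ (hKmod j) _
  have hwd : ∀ j, dist (d (w (j + 1))) (d (F (w j))) < δ / 2 := by
    intro j
    rw [hw, hw, hcs]
    exact hnx j (c j)
  obtain ⟨s, t, hst, hclose⟩ := close_pair (S := d '' K) ((hK.isCompact).image hd)
    (u := fun t => d (w (m * t))) (fun t => ⟨_, hwK _, rfl⟩) (half_pos hδ)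
  obtain ⟨r, hr⟩ : ∃ r, t = s + r := ⟨t - s, by omega⟩
  subst hr
  have hr1 : 1 ≤ r := by omega
  have hn1 : 1 ≤ m * r := Nat.one_le_iff_ne_zero.2 (by positivity)
  refine ⟨m * r, fun i => w (m * s + i), hn1, fun i => hwK _, fun i _ => ?_, ?_,
    (c (m * s)).1, (c (m * s)).2, ?_⟩
  · exact (hwd (m * s + i)).trans (by linarith)
  · have e1 := hwd (m * s + (m * r - 1))
    have e2 : m * s + (m * r - 1) + 1 = m * (s + r) := by
      rw [mul_add]
      omega
    rw [e2] at e1
    simp only [add_zero]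
    have e3 := dist_triangle_left (d (w (m * s))) (d (F (w (m * s + (m * r - 1)))))
      (d (w (m * (s + r))))
    linarith
  · simp only [add_zero]
    rw [hw, Nat.mul_mod_right, hX0]

end Pool.Agent.R775.HL
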