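import Mathlib
import Pool.Agent.R774.Cl5
import Pool.Agent.TH80.CLX.Defs
import Pool.Agent.R189.NC.Defs

/-! Diffeomorphisms which are hyperbolic transversally to compact homogeneous leaves: definitions. -/

set_option autoImplicit false

open scoped Topology ContDiff Manifold
open Set Filter

noncomputable section

namespace Pool.Agent.R775.HL

open Pool.Agent.H718R2.G Pool.Agent.R774.ClStmt Pool.Agent.TH80.CLX Pool.Agent.R189.NC

universe u

/-- First kind of homogeneous leaves: `G` is a compact Lie group which acts smoothly on the open set `O`,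
and `F` commutes with the action on `O`. The leaves are the orbits of `G` in `O`. -/
def CompactLeaves (n : ℕ) (N : Type u) [TopologicalSpace N] [ChartedSpace (V n) N] {G : Type}
    [Group G] [TopologicalSpace G] (F : N → N) (O : Set N) (act : G → N → N) : Prop :=
  CompactSpace G ∧ (∃ (q : ℕ) (ι : G →* Matrix (Fin q) (Fin q) ℂ), IsLieAction n N ι O act) ∧
    ∀ g, ∀ y ∈ O, F (act g y) = act g (F y)

/-- Second kind of homogeneous leaves: `G` is a simply connected nilpotent Lie group which acts smoothly
on the open set `O`, all orbits in `O` are compact nilmanifolds `G / Γ`, and `F` maps them to orbits by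
affine maps: for every `y ∈ O` there is an endomorphism `φ` of `G` with `F (g y) = φ(g) F(y)`. -/
def NilLeaves (n : ℕ) (N : Type u) [TopologicalSpace N] [ChartedSpace (V n) N] {G : Type}
    [Group G] [TopologicalSpace G] (F : N → N) (O : Set N) (act : G → N → N) : Prop :=
  (∃ (d : ℕ) (ι : G →* Md d), IsNilAction n N ι O act ∧ ∀ y ∈ O, IsNilPt ι act y) ∧
    ∀ y ∈ O, ∃ φ : G →* G, ∀ g, F (act g y) = act (φ g) (F y)

/-- `K ⊆ O` is closed, invariant under `F` and under `G`, and every orbit in `K` is covered by one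
compact subset `C` of `G`. -/
structure SatSet {N : Type u} [TopologicalSpace N] {G : Type} [TopologicalSpace G] (F : N → N)
    (O : Set N) (act : G → N → N) (K : Set N) : Prop where
  closed : IsClosed K
  sub : K ⊆ O
  inv : ∀ x ∈ K, F x ∈ K
  sat : ∀ x ∈ K, ∀ g, act g x ∈ K
  cocompact : ∃ C : Set G, IsCompact C ∧ ∀ x ∈ K, ∀ g, ∃ c ∈ C, act g x = act c x

/-- The maps `Φ s` of `N`, `s ∈ ℝᵏ`, `C¹` in both variables, with `Φ 0 = id`, move the points of `O`
inside their orbits, and on `K` the derivative in `s` at `0` is injective. -/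
structure Moves {k n : ℕ} {N : Type u} [TopologicalSpace N] [ChartedSpace (V n) N] {G : Type}
    (O : Set N) (act : G → N → N) (K : Set N) (Φ : V k → N → N) : Prop where
  fam : ContMDiff ((𝓡 k).prod (𝓡 n)) (𝓡 n) 1 (fun q : V k × N => Φ q.1 q.2)
  fam_zero : ∀ y, Φ 0 y = y
  along : ∀ s, ∀ y ∈ O, ∃ g, Φ s y = act g y
  free : ∀ x ∈ K, ∀ s, orb (n := n) Φ x s = 0 → s = 0

/-- The quadratic form `Q = quad e B` (of any signature) on the tangent spaces does not change in the
directions of `Φ`, and it increases strictly under `DF` on all vectors which are not tangent to `Φ`, at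
the points of `K`. -/
structure QuadHyp {k m n : ℕ} {N : Type u} [TopologicalSpace N] [ChartedSpace (V n) N]
    (F : N → N) (K : Set N) (Φ : V k → N → N) (e : N → V m) (B : N → V m →L[ℝ] V m →L[ℝ] ℝ) :
    Prop where
  smooth : ContMDiff (𝓡 n) (𝓡 m) 1 e
  cont : Continuous B
  basic : ∀ x ∈ K, ∀ (v : V n) (s : V k), quad e B x (v + orb Φ x s) = quad e B x v
  incr : ∀ x ∈ K, ∀ v : V n, (∀ s, v ≠ orb Φ x s) →
    quad e B x v < quad e B (F x) (Pool.Agent.R774.Cl.dr (V n) (V n) F x v)

/-- `F` is hyperbolic transversally to the orbits on the saturated closed invariant set `K`. -/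
structure TransHyp {k m n : ℕ} {N : Type u} [TopologicalSpace N] [ChartedSpace (V n) N] {G : Type}
    [TopologicalSpace G] (F : N → N) (O : Set N) (act : G → N → N) (K : Set N)
    (Φ : V k → N → N) (e : N → V m) (B : N → V m →L[ℝ] V m →L[ℝ] ℝ) : Prop
    extends SatSet F O act K, Moves (n := n) O act K Φ, QuadHyp (n := n) F K Φ e B

/-- `z` is chain recurrent in `K` modulo the orbits: for every neighbourhood `W` of the diagonal there
are `z = x₀, x₁, …, x_m = z` in `K`, `m ≥ 1`, such that some point of the orbit of `F(x_i)` is `W`-close to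
`x_(i+1)`. -/
def ChainRecMod {N : Type u} [TopologicalSpace N] {G : Type} (act : G → N → N) (F : N → N)
    (K : Set N) (z : N) : Prop :=
  ∀ W : Set (N × N), IsOpen W → (∀ x, (x, x) ∈ W) →
    ∃ (m : ℕ) (x : ℕ → N), 1 ≤ m ∧ x 0 = z ∧ x m = z ∧ (∀ i ≤ m, x i ∈ K) ∧
      ∀ i < m, ∃ g, (act g (F (x i)), x (i + 1)) ∈ W

/-- `F` has homogeneous leaves and is hyperbolic transversally to them on a closed set in which `z` is
chain recurrent modulo the leaves. -/
def HomHyp (n : ℕ) (N : Type u) [TopologicalSpace N] [ChartedSpace (V n) N] (F : N → N) (z : N) :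
    Prop :=
  ∃ (G : Type) (_ : Group G) (_ : TopologicalSpace G) (_ : IsTopologicalGroup G) (O K : Set N)
    (act : G → N → N) (k m : ℕ) (Φ : V k → N → N) (e : N → V m) (B : N → V m →L[ℝ] V m →L[ℝ] ℝ),
    (CompactLeaves n N F O act ∨ NilLeaves n N F O act) ∧ TransHyp (n := n) F O act K Φ e B ∧
      ChainRecMod act F K z

end Pool.Agent.R775.HL
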