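import Mathlib
import Pool.Agent.R775.HL.Defs
import Pool.Agent.R775.HL.Chain
import Pool.Agent.TH80.CLX.Main
import Pool.Agent.R189.NC.Toral

/-! Closing modulo homogeneous leaves. -/

set_option autoImplicit false

open scoped Topology ContDiff Manifold
open Set Filter Metric

noncomputable section

namespace Pool.Agent.R775.HL

open Pool.Agent.H718R2.G Pool.Agent.R774.ClStmt Pool.Agent.R774.Cl Pool.Agent.TH80.CLX
open Pool.Agent.R189.NC Pool.Agent.TH382.QC

universe u

variable {k m n : ℕ} {N : Type u} [TopologicalSpace N] [ChartedSpace (V n) N]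
  {G : Type} [Group G] [TopologicalSpace G]

lemma val_succ {q : ℕ} [NeZero q] (i : ZMod q) :
    (i + 1).val = if i.val + 1 < q then i.val + 1 else 0 := by
  have h1 : i + 1 = ((i.val + 1 : ℕ) : ZMod q) := by
    push_cast
    rw [ZMod.natCast_zmod_val]
  have h2 := ZMod.val_lt i
  rw [h1, ZMod.val_natCast]
  split_ifs with h3
  · rw [Nat.mod_eq_of_lt h3]
  · have h4 : i.val + 1 = q := by omega
    rw [h4, Nat.mod_self]

/-- **Closing modulo the leaves**: points near `z` whose leaf is periodic. -/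
theorem leaf_closing [IsManifold (𝓡 n) ∞ N] [T2Space N] [CompactSpace N] [IsTopologicalGroup G]
    {F : N → N} (hF : ContMDiff (𝓡 n) (𝓡 n) 1 F) {O K : Set N} {act : G → N → N}
    {Φ : V k → N → N} {e : N → V m} {B : N → V m →L[ℝ] V m →L[ℝ] ℝ}
    (hO : Orbs O act F) (h : TransHyp (n := n) F O act K Φ e B) {z : N}
    (hz : ChainRecMod act F K z) {W : Set N} (hW : W ∈ 𝓝 z) :
    ∃ y ∈ W, (∀ i, F^[i] y ∈ O) ∧ ∃ q : ℕ, 1 ≤ q ∧ ∃ g, F^[q] y = act g y := by
  have hzK : z ∈ K := by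
    obtain ⟨q, x, _, h0, _, h2, _⟩ := hz univ isOpen_univ (fun _ => trivial)
    rw [← h0]
    exact h2 0 (Nat.zero_le _)
  obtain ⟨C, hC, hCK⟩ := h.cocompact
  obtain ⟨M, d, hd1, hd2, -⟩ := exists_embedding_euclidean_of_compact (I := 𝓡 n) (M := N)
  obtain ⟨δ, hδ, hcl⟩ := closing (E := V n) (T := V k) ⟨h.fam, h.fam_zero⟩ hF h.cont h.smooth
    (d := d) hd1.continuous hd2.injective h.closed h.inv h.free h.basic h.incr
    (Q := fun x y _ => y ∈ O ∧ F y ∈ O ∧ ∀ c ∈ C, act c z = x → act c⁻¹ y ∈ W)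
    (by
      intro x hx
      have hc1 : Continuous (fun q : N × N × V k => q.2.1) := continuous_fst.comp continuous_snd
      have e1 : ∀ᶠ q : N × N × V k in 𝓝 (x, x, (0 : V k)), q.2.1 ∈ O :=
        (hc1.tendsto (x, x, (0 : V k))).eventually (hO.isOpen.mem_nhds (h.sub hx))
      have e2 : ∀ᶠ q : N × N × V k in 𝓝 (x, x, (0 : V k)), F q.2.1 ∈ O :=
        ((hF.continuous.comp hc1).tendsto (x, x, (0 : V k))).eventually
          (hO.isOpen.mem_nhds (h.sub (h.inv x hx)))
      have e3 : ∀ᶠ q : N × N × V k in 𝓝 (x, x, (0 : V k)),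
          ∀ c ∈ C, act c z = q.1 → act c⁻¹ q.2.1 ∈ W := by
        refine hC.eventually_forall_of_forall_eventually fun c _ => ?_
        by_cases hcx : act c z = x
        · have h1 : ContinuousAt (fun w : (N × N × V k) × G => (w.2⁻¹, w.1.2.1))
              ((x, x, (0 : V k)), c) := by fun_prop
          have h2 : ContinuousAt (fun w : (N × N × V k) × G => act w.2⁻¹ w.1.2.1)
              ((x, x, (0 : V k)), c) :=
            ContinuousAt.comp (g := fun p : G × N => act p.1 p.2)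
              (f := fun w : (N × N × V k) × G => (w.2⁻¹, w.1.2.1)) (hO.contAt (h.sub hx)) h1
          have h3 : act c⁻¹ x = z := by
            rw [← hcx, ← hO.mul _ _ _ (h.sub hzK), inv_mul_cancel, hO.one _ (h.sub hzK)]
          have h4 : Tendsto (fun w : (N × N × V k) × G => act w.2⁻¹ w.1.2.1)
              (𝓝 ((x, x, (0 : V k)), c)) (𝓝 (act c⁻¹ x)) := h2
          rw [h3] at h4
          filter_upwards [h4.eventually hW] with w hw _
          exact hw
        · have h1 : ContinuousAt (fun w : (N × N × V k) × G => (w.2, z))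
              ((x, x, (0 : V k)), c) := by fun_prop
          have h2 : ContinuousAt (fun w : (N × N × V k) × G => act w.2 z)
              ((x, x, (0 : V k)), c) :=
            ContinuousAt.comp (g := fun p : G × N => act p.1 p.2)
              (f := fun w : (N × N × V k) × G => (w.2, z)) (hO.contAt (h.sub hzK)) h1
          have h3 : ContinuousAt (fun w : (N × N × V k) × G => w.1.1)
              ((x, x, (0 : V k)), c) := by fun_prop
          have h5 : Tendsto (fun w : (N × N × V k) × G => (act w.2 z, w.1.1))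
              (𝓝 ((x, x, (0 : V k)), c)) (𝓝 (act c z, x)) := h2.prodMk h3
          have h6 : (diagonal N)ᶜ ∈ 𝓝 (act c z, x) :=
            (isClosed_diagonal.isOpen_compl).mem_nhds hcx
          filter_upwards [h5.eventually h6] with w hw h7
          exact absurd h7 hw
      filter_upwards [e1, e2, e3] with q h1 h2 h3
      exact ⟨h1, h2, h3⟩)
  obtain ⟨q, x, hq, hxK, hxd, hx0, c, hc, hxc⟩ := chain hO h.closed h.sub h.inv h.sat hC hCK
    hd1.continuous hz hδ
  have : NeZero q := ⟨by omega⟩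
  obtain ⟨y, s, hys, hQ⟩ := hcl q (fun i => x i.val) (fun i => hxK _) (fun i => by
    rw [← dist_eq_norm]
    simp only [val_succ]
    split_ifs with h1
    · exact hxd _ h1
    · have h2 := ZMod.val_lt i
      have h3 : i.val = q - 1 := by omega
      rw [h3]
      exact hx0)
  have hyO : ∀ i, y i ∈ O := fun i => (hQ i).1
  have hFyO : ∀ i, F (y i) ∈ O := fun i => (hQ i).2.1
  have hY : act c⁻¹ (y 0) ∈ W := (hQ 0).2.2 c hc (by rw [ZMod.val_zero, hxc])
  have hcy : act c (act c⁻¹ (y 0)) = y 0 := by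
    rw [← hO.mul _ _ _ (hyO 0), mul_inv_cancel, hO.one _ (hyO 0)]
  have hit : ∀ j : ℕ, ∃ g, F^[j] (act c⁻¹ (y 0)) = act g (y (j : ZMod q)) := by
    intro j
    induction j with
    | zero => exact ⟨c⁻¹, by simp⟩
    | succ j ih =>
      obtain ⟨g, hg⟩ := ih
      obtain ⟨g', hg'⟩ := hO.orb _ (hyO (j : ZMod q)) g
      obtain ⟨γ, hγ⟩ := h.along (s (j : ZMod q)) _ (hFyO (j : ZMod q))
      refine ⟨g' * γ⁻¹, ?_⟩
      have e1 : ((j + 1 : ℕ) : ZMod q) = (j : ZMod q) + 1 := by push_cast; rfl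
      rw [Function.iterate_succ_apply', hg, hg', e1, ← hys, hγ, hO.mul _ _ _ (hO.maps _ _ (hFyO _)),
        ← hO.mul γ⁻¹ γ _ (hFyO _), inv_mul_cancel, hO.one _ (hFyO _)]
  refine ⟨act c⁻¹ (y 0), hY, fun j => ?_, q, hq, ?_⟩
  · obtain ⟨g, hg⟩ := hit j
    rw [hg]
    exact hO.maps _ _ (hyO _)
  · obtain ⟨g, hg⟩ := hit q
    refine ⟨g * c, ?_⟩
    rw [hg, ZMod.natCast_self, hO.mul _ _ _ (hO.maps _ _ (hyO 0)), hcy]

/-- compact leaves -/
lemma orbs_compact {F : N → N} {O : Set N} {act : G → N → N} (h : CompactLeaves n N F O act) :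
    Orbs O act F := by
  obtain ⟨_, ⟨q, ι, hact⟩, hF⟩ := h
  exact ⟨hact.isOpen, hact.maps, hact.one, hact.mul, hact.cont, fun y hy g => ⟨g, hF g y hy⟩⟩

/-- nilpotent leaves -/
lemma orbs_nil {F : N → N} {O : Set N} {act : G → N → N} (h : NilLeaves n N F O act) :
    Orbs O act F := by
  obtain ⟨⟨d, ι, hact, _⟩, hF⟩ := h
  exact ⟨hact.isOpen, hact.maps, hact.one, hact.mul, hact.cont, fun y hy g => by
    obtain ⟨φ, hφ⟩ := hF y hy
    exact ⟨φ g, hφ g⟩⟩

lemma homPer {F : N → N} {O : Set N} {act : G → N → N} (h : CompactLeaves n N F O act) {y : N}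
    (hy : ∀ i, F^[i] y ∈ O) (hq : ∃ q : ℕ, 1 ≤ q ∧ ∃ g, F^[q] y = act g y) :
    IsHomPer n N F y := by
  classical
  obtain ⟨_, ⟨q, ι, hact⟩, hF⟩ := h
  have hyO : y ∈ O := hy 0
  have hit : ∀ (i : ℕ) g, F^[i] (act g y) = act g (F^[i] y) := by
    intro i g
    induction i with
    | zero => rfl
    | succ i ih =>
      rw [Function.iterate_succ_apply', ih, hF _ _ (hy i), Function.iterate_succ_apply' F]
  refine ⟨G, inferInstance, inferInstance, inferInstance, q, ι, O, act, hact, hyO,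
    Nat.find hq, (Nat.find_spec hq).1, (Nat.find_spec hq).2, fun g => hit _ g,
    fun i hi1 hi2 a b hab => ?_⟩
  apply Nat.find_min hq hi2
  refine ⟨hi1, a⁻¹ * b, ?_⟩
  rw [hact.mul _ _ _ hyO, ← hab, hit, ← hact.mul _ _ _ (hy i), inv_mul_cancel,
    hact.one _ (hy i)]

lemma nilPer [IsTopologicalGroup G] {F : N → N} {O : Set N} {act : G → N → N}
    (h : NilLeaves n N F O act) {y : N}
    (hy : ∀ i, F^[i] y ∈ O) (hq : ∃ q : ℕ, 1 ≤ q ∧ ∃ g, F^[q] y = act g y) :
    IsNilPer n N F y := by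
  classical
  obtain ⟨⟨d, ι, hact, hpt⟩, hF⟩ := h
  have hyO : y ∈ O := hy 0
  have hit : ∀ i : ℕ, ∃ φ : G →* G, ∀ g, F^[i] (act g y) = act (φ g) (F^[i] y) := by
    intro i
    induction i with
    | zero => exact ⟨MonoidHom.id G, fun g => rfl⟩
    | succ i ih =>
      obtain ⟨φ, hφ⟩ := ih
      obtain ⟨ψ, hψ⟩ := hF _ (hy i)
      refine ⟨ψ.comp φ, fun g => ?_⟩
      rw [Function.iterate_succ_apply', hφ, hψ, Function.iterate_succ_apply' F]
      rfl
  obtain ⟨p, hp⟩ := (Nat.find_spec hq).2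
  obtain ⟨φ, hφ⟩ := hit (Nat.find hq)
  refine ⟨G, inferInstance, inferInstance, inferInstance, d, ι, O, act, hact, hyO, hpt y hyO,
    Nat.find hq, (Nat.find_spec hq).1, ⟨p, (MulAut.conj p⁻¹).toMonoidHom.comp φ, fun g => ?_⟩,
    fun i hi1 hi2 a b hab => ?_⟩
  · rw [hφ, hp, ← hact.mul _ _ _ hyO]
    congr 1
    show φ g * p = p * (p⁻¹ * φ g * p⁻¹⁻¹)
    group
  · obtain ⟨ψ, hψ⟩ := hit i
    apply Nat.find_min hq hi2
    refine ⟨hi1, (ψ a)⁻¹ * b, ?_⟩
    rw [hact.mul _ _ _ hyO, ← hab, hψ, ← hact.mul _ _ _ (hy i), inv_mul_cancel,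
      hact.one _ (hy i)]

/-- fibrewise affine maps for a free torus action -/
theorem torus_homHyp {a : ℕ} {F : N → N} {R : V a → N → N} (hR : IsTorusAct a n N R)
    (hfree : ∀ y, ∀ s : V a, R s y = y → ∀ j, ∃ l : ℤ, s j = (l : ℝ))
    (L : V a →+ V a) (hF : ∀ s y, F (R s y) = R (L s) (F y)) {K : Set N} {e : N → V m}
    {B : N → V m →L[ℝ] V m →L[ℝ] ℝ}
    (h : TransHyp (n := n) F univ (fun (g : Multiplicative (V a)) y => R g.toAdd y) K R e B) {z : N}
    (hz : ChainRecMod (fun (g : Multiplicative (V a)) y => R g.toAdd y) F K z) :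
    HomHyp n N F z :=
  ⟨Multiplicative (V a), inferInstance, inferInstance, inferInstance, univ, K,
    fun g y => R g.toAdd y, a, m, R, e, B,
    Or.inr ⟨⟨a + 1, tau a, torus_nilAction hR, fun y _ => torus_nilPt hR (hfree y)⟩,
      fun _ _ => ⟨AddMonoidHom.toMultiplicative L, fun g => hF g.toAdd _⟩⟩, h, hz⟩

/-- **The closing lemma for diffeomorphisms which are hyperbolic transversally to homogeneous
leaves.** -/
theorem closable [IsManifold (𝓡 n) ∞ N] [T2Space N] [CompactSpace N] (r : ℕ∞) (hr : 1 ≤ r)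
    (F : DiffM n N r) {z : N} (h : HomHyp n N F z)
    (U : Set (DiffM n N r)) (hU : IsOpen[strongTop n N r] U) (hFU : F ∈ U) :
    ∃ H ∈ U, IsPer H z := by
  obtain ⟨G, _, _, _, O, K, act, k, m, Φ, e, B, hl, hyp, hz⟩ := h
  have hF1 : ContMDiff (𝓡 n) (𝓡 n) 1 F := F.contMDiff_toFun.of_le (by exact_mod_cast hr)
  rcases hl with hl | hl
  · refine Pool.Agent.TH80.CLX.main r hr F z (fun U' _ hFU' => ⟨F, hFU', ?_⟩) U hU hFU
    rw [mem_closure_iff_nhds]
    intro W hW
    obtain ⟨y, hyW, hyO, hyq⟩ := leaf_closing hF1 (orbs_compact hl) hyp hz hW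
    exact ⟨y, hyW, homPer hl hyO hyq⟩
  · refine Pool.Agent.R189.NC.main F z (fun U' _ hFU' => ⟨F, hFU', ?_⟩) U hU hFU
    rw [mem_closure_iff_nhds]
    intro W hW
    obtain ⟨y, hyW, hyO, hyq⟩ := leaf_closing hF1 (orbs_nil hl) hyp hz hW
    exact ⟨y, hyW, nilPer hl hyO hyq⟩

end Pool.Agent.R775.HL
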