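import Mathlib
import Pool.Agent.R775.HL.LinDef

/-! Linear algebra: eigenvalues of a linear map and of an invariant restriction of its power. -/

set_option autoImplicit false

open Polynomial

namespace Pool.Agent.R775.HL

lemma root_norm {E : Type*} [AddCommGroup E] [Module ℝ E] [Module.Finite ℝ E] [Module.Free ℝ E]
    {L : E →ₗ[ℝ] E} {m : ℕ} {p : ℝ[X]}
    (hp : aeval (L ^ m) p = 0)
    (hroot : ∀ μ : ℂ, (p.map (algebraMap ℝ ℂ)).IsRoot μ → ‖μ‖ ≠ 1) : HypLin L := by
  classical
  intro μ hμ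
  let b := Module.Free.chooseBasis ℝ E
  let M := LinearMap.toMatrix b b L
  let Mc : Matrix _ _ ℂ := M.map (algebraMap ℝ ℂ)
  have h1 : (Matrix.toLin' Mc).charpoly.IsRoot μ := by
    have e1 : L.charpoly = M.charpoly := (LinearMap.charpoly_toMatrix L b).symm
    have e2 : (Matrix.toLin' Mc).charpoly = Mc.charpoly := by
      rw [← LinearMap.charpoly_toMatrix (Matrix.toLin' Mc) (Pi.basisFun ℂ _)]
      congr 1
      exact LinearMap.toMatrix'_toLin' Mc
    rw [e2, Matrix.charpoly_map, ← e1]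
    exact hμ
  have h2 : Module.End.HasEigenvalue (Matrix.toLin' Mc) μ :=
    (Module.End.hasEigenvalue_iff_isRoot_charpoly _ _).2 h1
  obtain ⟨v, hv⟩ := h2.exists_hasEigenvector
  have h3 : aeval L (p.comp (X ^ m)) = 0 := by
    rw [aeval_comp, map_pow, aeval_X]
    exact hp
  have h4 : aeval M (p.comp (X ^ m)) = 0 := by
    have e := Polynomial.map_aeval_eq_aeval_map (S := Module.End ℝ E)
      (U := Matrix _ _ ℝ) (φ := RingHom.id ℝ) (ψ := (LinearMap.toMatrixAlgEquiv b).toRingHom)
      (by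
        ext x
        simp) (p.comp (X ^ m)) L
    rw [Polynomial.map_id] at e
    rw [h3, map_zero] at e
    exact e.symm
  have h5 : aeval (Matrix.toLin' Mc) ((p.comp (X ^ m)).map (algebraMap ℝ ℂ)) = 0 := by
    have e := Polynomial.map_aeval_eq_aeval_map (S := Matrix _ _ ℝ)
      (U := Matrix _ _ ℂ) (φ := algebraMap ℝ ℂ) (ψ := (algebraMap ℝ ℂ).mapMatrix)
      (by
        ext x i j
        simp [Matrix.algebraMap_matrix_apply]
        split_ifs <;> simp) (p.comp (X ^ m)) M
    rw [h4, map_zero] at e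
    have e' : aeval Mc ((p.comp (X ^ m)).map (algebraMap ℝ ℂ)) = 0 := e.symm
    have e2 := Polynomial.map_aeval_eq_aeval_map (S := Matrix _ _ ℂ)
      (U := Module.End ℂ (_ → ℂ)) (φ := RingHom.id ℂ)
      (ψ := (Matrix.toLinAlgEquiv' (R := ℂ)).toRingHom)
      (by
        ext x
        simp) ((p.comp (X ^ m)).map (algebraMap ℝ ℂ)) Mc
    rw [Polynomial.map_id, e', map_zero] at e2
    exact e2.symm
  have h6 := Module.End.aeval_apply_of_hasEigenvector hv
    (p := (p.comp (X ^ m)).map (algebraMap ℝ ℂ))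
  rw [h5, LinearMap.zero_apply] at h6
  have h7 : ((p.comp (X ^ m)).map (algebraMap ℝ ℂ)).eval μ = 0 := by
    rcases smul_eq_zero.1 h6.symm with h | h
    · exact h
    · exact absurd h hv.2
  have h8 : (p.map (algebraMap ℝ ℂ)).IsRoot (μ ^ m) := by
    rw [Polynomial.map_comp, eval_comp] at h7
    simpa using h7
  intro hc
  exact hroot _ h8 (by rw [norm_pow, hc, one_pow])

/-- intertwining of polynomials -/
lemma aeval_inter {E E' : Type*} [AddCommGroup E] [Module ℝ E] [AddCommGroup E'] [Module ℝ E']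
    {D : E' →ₗ[ℝ] E'} {A : E →ₗ[ℝ] E} {J : E →ₗ[ℝ] E'} (h : D ∘ₗ J = J ∘ₗ A) (p : ℝ[X]) :
    (aeval D p) ∘ₗ J = J ∘ₗ (aeval A p) := by
  induction p using Polynomial.induction_on' with
  | add p q hp hq => rw [map_add, map_add, LinearMap.add_comp, LinearMap.comp_add, hp, hq]
  | monomial k c =>
    have hk : ∀ k : ℕ, (D ^ k) ∘ₗ J = J ∘ₗ (A ^ k) := by
      intro k
      induction k with
      | zero => rw [pow_zero, pow_zero]; rfl
      | succ k ih =>
        rw [pow_succ', pow_succ', Module.End.mul_eq_comp, Module.End.mul_eq_comp,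
          LinearMap.comp_assoc, ih, ← LinearMap.comp_assoc, h, LinearMap.comp_assoc]
    rw [aeval_monomial, aeval_monomial]
    ext x
    have := LinearMap.congr_fun (hk k) x
    simp only [LinearMap.comp_apply, Module.End.mul_apply, Module.algebraMap_end_apply] at this ⊢
    rw [this, map_smul]

lemma hypLin_of_inter {E E' : Type*} [AddCommGroup E] [Module ℝ E] [Module.Finite ℝ E]
    [Module.Free ℝ E] [AddCommGroup E'] [Module ℝ E'] [Module.Finite ℝ E'] [Module.Free ℝ E']
    {D : E' →ₗ[ℝ] E'} {L : E →ₗ[ℝ] E} {J : E →ₗ[ℝ] E'} {m : ℕ} (hJ : Function.Injective J)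
    (h : D ∘ₗ J = J ∘ₗ (L ^ m)) (hD : HypLin D) : HypLin L := by
  refine root_norm (m := m) (p := D.charpoly) ?_ hD
  ext x
  apply hJ
  have h1 := LinearMap.congr_fun (aeval_inter h D.charpoly) x
  rw [LinearMap.aeval_self_charpoly] at h1
  simp only [LinearMap.comp_apply, LinearMap.zero_apply] at h1
  rw [← h1, LinearMap.zero_apply, map_zero]

end Pool.Agent.R775.HL
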