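import Mathlib
import Pool.Agent.R775.HL.Lin

/-! Powers of an integral automorphism are congruent to one modulo any number. -/

set_option autoImplicit false

open Polynomial

namespace Pool.Agent.R775.HL

/-- powers of a map without eigenvalues of modulus one have no fixed vectors -/
lemma HypLin.pow_fix {E : Type*} [AddCommGroup E] [Module ℝ E] [Module.Finite ℝ E]
    [Module.Free ℝ E] {L : E →ₗ[ℝ] E} (h : HypLin L) {m : ℕ} (hm : 1 ≤ m) {s : E}
    (hs : (L ^ m) s = s) : s = 0 := by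
  have h1 : IsCoprime L.charpoly (X ^ m - 1 : ℝ[X]) := by
    rw [← Polynomial.isCoprime_map (algebraMap ℝ ℂ),
      Polynomial.isCoprime_iff_aeval_ne_zero_of_isAlgClosed ℂ ℂ]
    intro μ
    by_contra hcon
    push Not at hcon
    obtain ⟨e1, e2⟩ := hcon
    have e3 : (L.charpoly.map (algebraMap ℝ ℂ)).IsRoot μ := by
      simpa [Polynomial.aeval_def] using e1
    have e4 : μ ^ m = 1 := by
      simp at e2
      exact sub_eq_zero.1 e2
    refine h μ e3 ?_
    have e5 : ‖μ‖ ^ m = 1 := by rw [← norm_pow, e4, norm_one]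
    exact (pow_eq_one_iff_of_nonneg (norm_nonneg _) (by omega)).1 e5
  obtain ⟨u, v, huv⟩ := h1
  have h2 := congrArg (fun p : ℝ[X] => aeval L p s) huv
  simp only [map_add, map_mul, map_one, LinearMap.aeval_self_charpoly, mul_zero, zero_add,
    map_sub, map_pow, aeval_X, Module.End.mul_apply, Module.End.one_apply,
    LinearMap.sub_apply, hs, sub_self, map_zero] at h2
  exact h2.symm

/-- Euclidean space -/
abbrev W (a : ℕ) := EuclideanSpace ℝ (Fin a)

/-- integral vectors -/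
def Int' {a : ℕ} (s : W a) : Prop := ∀ j, ∃ l : ℤ, s j = (l : ℝ)

/-- the vector with the given integral coordinates -/
noncomputable def iv {a : ℕ} (w : Fin a → ℤ) : W a := WithLp.toLp 2 fun i => (w i : ℝ)

lemma iv_apply {a : ℕ} (w : Fin a → ℤ) (i : Fin a) : iv w i = (w i : ℝ) := rfl

lemma iv_inj {a : ℕ} {w w' : Fin a → ℤ} (h : iv w = iv w') : w = w' := by
  funext i
  have h1 : iv w i = iv w' i := by rw [h]
  rw [iv_apply, iv_apply] at h1
  exact Int.cast_injective h1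

lemma Int'.exists_iv {a : ℕ} {s : W a} (h : Int' s) : ∃ w : Fin a → ℤ, s = iv w := by
  choose w hw using h
  refine ⟨w, ?_⟩
  ext i
  rw [hw i, iv_apply]

lemma int'_iv {a : ℕ} (w : Fin a → ℤ) : Int' (iv w) := fun j => ⟨w j, rfl⟩

lemma int_smul_zero {a : ℕ} {s : W a} (h : ∀ t : ℝ, Int' (t • s)) : s = 0 := by
  ext j
  by_contra hne
  have hne' : s j ≠ 0 := hne
  obtain ⟨l, hl⟩ := h (1 / (2 * s j)) j
  rw [PiLp.smul_apply, smul_eq_mul] at hl
  have h1 : (1 : ℝ) / (2 * s j) * s j = 1 / 2 := by field_simp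
  rw [h1] at hl
  have h2 : (1 : ℝ) = 2 * l := by linarith
  have h3 : (1 : ℤ) = 2 * l := by exact_mod_cast h2
  omega

lemma iv_sum {a : ℕ} (w : Fin a → ℤ) : iv w = ∑ j, (w j : ℝ) • iv (Pi.single j (1 : ℤ)) := by
  ext i
  rw [WithLp.ofLp_sum, Finset.sum_apply, iv_apply, Finset.sum_eq_single i]
  · rw [PiLp.smul_apply, iv_apply, Pi.single_eq_same]
    simp
  · intro j _ hj
    rw [PiLp.smul_apply, iv_apply, Pi.single_eq_of_ne hj.symm]
    simp
  · intro h
    exact absurd (Finset.mem_univ i) h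

lemma exists_mat {a : ℕ} {L : W a →ₗ[ℝ] W a} (h1 : ∀ s, Int' s → Int' (L s)) :
    ∃ A : Matrix (Fin a) (Fin a) ℤ, ∀ w : Fin a → ℤ, L (iv w) = iv (A.mulVec w) := by
  have h2 : ∀ j : Fin a, ∃ c : Fin a → ℤ, L (iv (Pi.single j 1)) = iv c := fun j =>
    (h1 _ (int'_iv _)).exists_iv
  choose c hc using h2
  refine ⟨Matrix.of fun i j => c j i, fun w => ?_⟩
  rw [iv_sum w, map_sum]
  ext i
  rw [WithLp.ofLp_sum, Finset.sum_apply, iv_apply]
  simp only [map_smul, hc]
  rw [Matrix.mulVec, dotProduct]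
  push_cast
  refine Finset.sum_congr rfl fun j _ => ?_
  rw [PiLp.smul_apply, iv_apply, smul_eq_mul, mul_comm]
  rfl

lemma mat_pow {a : ℕ} {L : W a →ₗ[ℝ] W a} {A : Matrix (Fin a) (Fin a) ℤ}
    (h : ∀ w : Fin a → ℤ, L (iv w) = iv (A.mulVec w)) (k : ℕ) (w : Fin a → ℤ) :
    (L ^ k) (iv w) = iv ((A ^ k).mulVec w) := by
  induction k with
  | zero => simp
  | succ k ih => rw [pow_succ', Module.End.mul_apply, ih, h, pow_succ', Matrix.mulVec_mulVec]

/-- A linear map which maps the integral vectors bijectively onto themselves has powers congruent to one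
modulo any `M`. -/
lemma pow_cong {a : ℕ} {L : W a →ₗ[ℝ] W a} (h1 : ∀ s, Int' s → Int' (L s))
    (h2 : ∀ s, Int' (L s) → Int' s) {M : ℕ} (hM : 1 ≤ M) :
    ∃ c : ℕ, 1 ≤ c ∧ ∀ k : ℕ, ∀ w : Fin a → ℤ,
      Int' ((L ^ (c * k)) ((M : ℝ)⁻¹ • iv w) - (M : ℝ)⁻¹ • iv w) := by
  classical
  have : NeZero M := ⟨by omega⟩
  obtain ⟨A, hA⟩ := exists_mat h1
  -- the inverse matrix
  have hinj : Function.Injective L := by
    rw [injective_iff_map_eq_zero]
    intro s hs
    refine int_smul_zero fun t => h2 _ ?_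
    rw [map_smul, hs, smul_zero]
    exact fun j => ⟨0, by simp⟩
  have hsurj : Function.Surjective L := LinearMap.injective_iff_surjective.1 hinj
  have h3 : ∀ j : Fin a, ∃ c : Fin a → ℤ, L (iv c) = iv (Pi.single j 1) := by
    intro j
    obtain ⟨s, hs⟩ := hsurj (iv (Pi.single j 1))
    obtain ⟨c, hc⟩ := (h2 s (by rw [hs]; exact int'_iv _)).exists_iv
    exact ⟨c, by rw [← hc, hs]⟩
  choose b hb using h3
  obtain ⟨B, hB⟩ : ∃ B : Matrix (Fin a) (Fin a) ℤ, ∀ i j, B i j = b j i :=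
    ⟨Matrix.of fun i j => b j i, fun i j => rfl⟩
  have hAB : A * B = 1 := by
    ext i j
    have e1 := hb j
    rw [hA] at e1
    have e2 := congrFun (iv_inj e1) i
    rw [Matrix.mul_apply, Matrix.one_apply]
    rw [Matrix.mulVec, dotProduct] at e2
    rw [Pi.single_apply] at e2
    simp only [hB]
    rw [e2]
  let f : ℤ →+* ZMod M := Int.castRingHom (ZMod M)
  have hAB' : (f.mapMatrix A) * (f.mapMatrix B) = 1 := by
    rw [← map_mul, hAB, map_one]
  let u : (Matrix (Fin a) (Fin a) (ZMod M))ˣ :=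
    ⟨f.mapMatrix A, f.mapMatrix B, hAB', mul_eq_one_comm.1 hAB'⟩
  obtain ⟨c, hc, hcu⟩ := isOfFinOrder_iff_pow_eq_one.1 (isOfFinOrder_of_finite u)
  refine ⟨c, hc, fun k w => ?_⟩
  have h4 : f.mapMatrix (A ^ (c * k)) = 1 := by
    have e1 : (u : Matrix (Fin a) (Fin a) (ZMod M)) ^ c = 1 := by
      rw [← Units.val_pow_eq_pow_val, hcu, Units.val_one]
    rw [map_pow, pow_mul]
    rw [show (f.mapMatrix A) ^ c = 1 from e1, one_pow]
  have h5 : ∀ i j, ∃ l : ℤ, (A ^ (c * k)) i j - (1 : Matrix (Fin a) (Fin a) ℤ) i j = M * l := by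
    intro i j
    have e1 : f ((A ^ (c * k)) i j - (1 : Matrix (Fin a) (Fin a) ℤ) i j) = 0 := by
      rw [map_sub]
      have e2 := congrFun (congrFun h4 i) j
      rw [RingHom.mapMatrix_apply, Matrix.map_apply] at e2
      rw [e2, Matrix.one_apply, Matrix.one_apply]
      split_ifs <;> simp
    have e3 : (((A ^ (c * k)) i j - (1 : Matrix (Fin a) (Fin a) ℤ) i j : ℤ) : ZMod M) = 0 := e1
    rw [ZMod.intCast_zmod_eq_zero_iff_dvd] at e3
    obtain ⟨l, hl⟩ := e3
    exact ⟨l, hl⟩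
  choose l hl using h5
  intro i
  refine ⟨∑ j, l i j * w j, ?_⟩
  have hM0 : (M : ℝ) ≠ 0 := by
    have : (M : ℝ) ≥ 1 := by exact_mod_cast hM
    linarith
  rw [map_smul, mat_pow hA, ← smul_sub, PiLp.smul_apply, PiLp.sub_apply, iv_apply, iv_apply,
    smul_eq_mul]
  have e1 : ((A ^ (c * k)).mulVec w i - w i : ℤ) = M * ∑ j, l i j * w j := by
    have e2 : (w i : ℤ) = (1 : Matrix (Fin a) (Fin a) ℤ).mulVec w i := by
      rw [Matrix.one_mulVec]
    rw [e2, Matrix.mulVec, Matrix.mulVec, dotProduct, dotProduct, ← Finset.sum_sub_distrib,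
      Finset.mul_sum]
    refine Finset.sum_congr rfl fun j _ => ?_
    rw [← sub_mul, hl, mul_assoc]
  have e3 : (((A ^ (c * k)).mulVec w i : ℤ) : ℝ) - (w i : ℝ) = (M : ℝ) * (∑ j, l i j * w j : ℤ) := by
    exact_mod_cast e1
  rw [e3]
  field_simp

end Pool.Agent.R775.HL
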