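import Mathlib
import Pool.Agent.R775.HL.Close
import Pool.Agent.R774.OS2

/-! `Ω`-stability and sets which are hyperbolic transversally to the orbits of compact Lie groups. -/

set_option autoImplicit false

open scoped Topology ContDiff Manifold
open Set Filter Metric

noncomputable section

namespace Pool.Agent.R775.HL

open Pool.Agent.H718R2.G Pool.Agent.R774.ClStmt Pool.Agent.R774.Cl Pool.Agent.TH80.CLX
open Pool.Agent.R189.NC Pool.Agent.TH382.QC Pool.Agent.TH80.OMS Pool.Agent.R774.OS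

universe u

variable {n : ℕ} {N : Type u} [TopologicalSpace N] [ChartedSpace (V n) N]

/-- The closed set `K` is invariant under `F` and hyperbolic transversally to the orbits of a compact Lie
group which acts smoothly near `K` and commutes there with `F`; the orbits in `K` are locally moved by
`k` parameters. -/
def CompactTrans (n : ℕ) {N : Type u} [TopologicalSpace N] [ChartedSpace (V n) N] (F : N → N)
    (k : ℕ) (K : Set N) : Prop :=
  ∃ (G : Type) (_ : Group G) (_ : TopologicalSpace G) (_ : IsTopologicalGroup G) (O : Set N)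
    (act : G → N → N) (m : ℕ) (Φ : V k → N → N) (e : N → V m) (B : N → V m →L[ℝ] V m →L[ℝ] ℝ),
    CompactLeaves n N F O act ∧ TransHyp (n := n) F O act K Φ e B

lemma chainRecMod_of {G : Type} [Group G] {O K : Set N} {act : G → N → N} {F : N → N}
    (h1 : ∀ y ∈ O, act 1 y = y) (hK : K ⊆ O) (hF : ∀ x ∈ K, F x ∈ K) {z : N}
    (hz : ChainRecOn F K z) : ChainRecMod act F K z := by
  intro W hW hd
  obtain ⟨m, x, hm, h0, hm', hx, hxW⟩ := hz W hW hd
  refine ⟨m, x, hm, h0, hm', hx, fun i hi => ⟨1, ?_⟩⟩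
  rw [h1 _ (hK (hF _ (hx i hi.le)))]
  exact hxW i hi

lemma homPerInf {G : Type} [Group G] [TopologicalSpace G] {F : N → N} {O : Set N}
    {act : G → N → N} (h : CompactLeaves n N F O act) {y : N}
    (hy : ∀ i, F^[i] y ∈ O) (hq : ∃ q : ℕ, 1 ≤ q ∧ ∃ g, F^[q] y = act g y)
    (hinf : (range fun g => act g y).Infinite) :
    IsHomPerInf n N F y := by
  classical
  obtain ⟨_, ⟨q, ι, hact⟩, hF⟩ := h
  have hyO : y ∈ O := hy 0
  have hit : ∀ (i : ℕ) g, F^[i] (act g y) = act g (F^[i] y) := by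
    intro i g
    induction i with
    | zero => rfl
    | succ i ih =>
      rw [Function.iterate_succ_apply', ih, hF _ _ (hy i), Function.iterate_succ_apply' F]
  refine ⟨G, inferInstance, inferInstance, inferInstance, q, ι, O, act, hact, hyO, hinf,
    ⟨Nat.find hq, (Nat.find_spec hq).1, (Nat.find_spec hq).2, fun g => hit _ g,
    fun i hi1 hi2 a b hab => ?_⟩⟩
  apply Nat.find_min hq hi2
  refine ⟨hi1, a⁻¹ * b, ?_⟩
  rw [hact.mul _ _ _ hyO, ← hab, hit, ← hact.mul _ _ _ (hy i), inv_mul_cancel,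
    hact.one _ (hy i)]

/-- leaf-periodic points with finite leaf are periodic -/
lemma per_of_finite {G : Type} [Group G] [TopologicalSpace G] {F : N → N} {O : Set N}
    {act : G → N → N} (h : CompactLeaves n N F O act) {y : N}
    (hy : ∀ i, F^[i] y ∈ O) (hq : ∃ q : ℕ, 1 ≤ q ∧ ∃ g, F^[q] y = act g y)
    (hfin : (range fun g => act g y).Finite) : y ∈ Per F := by
  obtain ⟨_, ⟨d, ι, hact⟩, hF⟩ := h
  have hyO : y ∈ O := hy 0
  have hit : ∀ (i : ℕ) g, F^[i] (act g y) = act g (F^[i] y) := by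
    intro i g
    induction i with
    | zero => rfl
    | succ i ih =>
      rw [Function.iterate_succ_apply', ih, hF _ _ (hy i), Function.iterate_succ_apply' F]
  obtain ⟨q, hq1, g, hg⟩ := hq
  have hpow : ∀ l : ℕ, F^[q * l] y = act (g ^ l) y := by
    intro l
    induction l with
    | zero => rw [pow_zero, hact.one _ hyO]; rfl
    | succ l ih =>
      rw [Nat.mul_succ, Nat.add_comm, Function.iterate_add_apply, ih, hit, hg,
        ← hact.mul _ _ _ hyO, pow_succ]
  obtain ⟨i, j, hij, he⟩ : ∃ i j : ℕ, i < j ∧ act (g ^ i) y = act (g ^ j) y := by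
    have hni : ¬ Function.Injective fun l : ℕ => act (g ^ l) y := by
      intro hinj
      have h1 : (range fun l : ℕ => act (g ^ l) y).Infinite := Set.infinite_range_of_injective hinj
      exact h1 (hfin.subset (by rintro _ ⟨l, rfl⟩; exact ⟨g ^ l, rfl⟩))
    rw [Function.Injective] at hni
    push Not at hni
    obtain ⟨a, b, hab, hne⟩ := hni
    rcases Nat.lt_or_gt_of_ne hne with h | h
    · exact ⟨a, b, h, hab⟩
    · exact ⟨b, a, h, hab.symm⟩
  refine ⟨q * (j - i), Nat.mul_pos hq1 (by omega), ?_⟩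
  rw [hpow]
  have e1 : g ^ (j - i) = (g ^ i)⁻¹ * g ^ j := by
    rw [eq_inv_mul_iff_mul_eq, ← pow_add]
    congr 1
    omega
  rw [e1, hact.mul _ _ _ hyO, ← he, ← hact.mul _ _ _ hyO, inv_mul_cancel, hact.one _ hyO]

variable [IsManifold (𝓡 n) ∞ N] [T2Space N] [CompactSpace N]

theorem cpt_rank_zero (r : ℕ∞) (hr : 1 ≤ r) {F : DiffM n N r} (hF : OmegaStable n N r F) :
    ∃ U : Set (DiffM n N r), IsOpen[strongTop n N r] U ∧ F ∈ U ∧ ∀ G ∈ U,
      ∀ (k : ℕ) (K : Set N), CompactTrans n G k K → K.Nonempty → k = 0 := by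
  obtain ⟨U, hU, hFU, hno⟩ := no_homPer hr hF
  refine ⟨U, hU, hFU, fun G hG k K hK hne => ?_⟩
  obtain ⟨Γ, _, _, _, O, act, m, Φ, e, B, hl, h⟩ := hK
  by_contra hk
  obtain ⟨z, hzK, hz⟩ := exists_chainRec G.continuous h.closed.isCompact hne h.inv
  have hO := orbs_compact hl
  have hz' := chainRecMod_of hO.one h.sub h.inv hz
  have hΦc : Continuous fun q : V k × N => Φ q.1 q.2 := h.fam.continuous
  have hWo : IsOpen {y : N | ∃ a, Φ a y ≠ y} := by
    have e1 : {y : N | ∃ a, Φ a y ≠ y} = ⋃ a, {y : N | Φ a y ≠ y} := by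
      ext y; simp
    rw [e1]
    refine isOpen_iUnion fun a => ?_
    have h1 : Continuous fun y : N => Φ a y := hΦc.comp (continuous_const.prodMk continuous_id)
    exact isOpen_ne_fun h1 continuous_id
  have hzW : z ∈ {y : N | ∃ a, Φ a y ≠ y} := by
    by_contra hcon
    simp only [Set.mem_ofPred_eq, not_exists, not_not] at hcon
    have h1 : ∀ s : V k, orb (n := n) Φ z s = 0 := by
      intro s
      unfold orb
      have h2 : (fun a => Φ a z) = fun _ => z := funext hcon
      rw [h2]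
      simp [dr]
      rfl
    have h3 : ∀ s : V k, s = 0 := fun s => h.free z hzK s (h1 s)
    have : Nontrivial (V k) := by
      have : NeZero k := ⟨hk⟩
      have : Nonempty (Fin k) := ⟨0⟩
      infer_instance
    obtain ⟨s, hs⟩ := exists_ne (0 : V k)
    exact hs (h3 s)
  have hG1 : ContMDiff (𝓡 n) (𝓡 n) 1 G := G.contMDiff_toFun.of_le (by exact_mod_cast hr)
  obtain ⟨y, ⟨a, ha⟩, hyO, hyq⟩ := leaf_closing hG1 hO h hz' (hWo.mem_nhds hzW)
  have hinf : (range fun g => act g y).Infinite := by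
    intro hfin
    have h2 : Continuous fun t : ℝ => Φ (t • a) y :=
      hΦc.comp ((continuous_id.smul continuous_const).prodMk continuous_const)
    have h3 := path_uncountable (fun t : ℝ => Φ (t • a) y) h2 (by
      simp only [zero_smul, one_smul, h.fam_zero]
      exact fun h => ha h.symm)
    apply h3
    refine hfin.countable.mono ?_
    rintro _ ⟨t, -, rfl⟩
    obtain ⟨g, hg⟩ := h.along (t • a) y (hyO 0)
    exact ⟨g, hg.symm⟩
  exact hno G hG y (homPerInf hl hyO hyq hinf)

theorem cpt_mem_closure_per (r : ℕ∞) (hr : 1 ≤ r) {F : DiffM n N r} (hF : OmegaStable n N r F)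
    {k : ℕ} {K : Set N} (hK : CompactTrans n F k K) {z : N} (hz : ChainRecOn F K z) :
    z ∈ closure (Per F) := by
  obtain ⟨U, -, hFU, hno⟩ := no_homPer hr hF
  obtain ⟨Γ, _, _, _, O, act, m, Φ, e, B, hl, h⟩ := hK
  have hO := orbs_compact hl
  have hz' := chainRecMod_of hO.one h.sub h.inv hz
  have hF1 : ContMDiff (𝓡 n) (𝓡 n) 1 F := F.contMDiff_toFun.of_le (by exact_mod_cast hr)
  rw [mem_closure_iff_nhds]
  intro W hW
  obtain ⟨y, hyW, hyO, hyq⟩ := leaf_closing hF1 hO h hz' hW
  refine ⟨y, hyW, per_of_finite hl hyO hyq ?_⟩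
  by_contra hinf
  exact hno F hFU y (homPerInf hl hyO hyq hinf)


omit [IsManifold (𝓡 n) ∞ N] in
/-- Density of the periodic points in the chain recurrent set and in the nonwandering set, from the
density in the parts of a decomposition. -/
theorem cr_dense [IsManifold (𝓡 n) ∞ N] {r : ℕ∞} {F : DiffM n N r} {ι : Type} [Finite ι] {K : ι → Set N}
    (hcl : ∀ i, IsClosed (K i)) (hinv : ∀ i, ∀ x ∈ K i, F x ∈ K i)
    (hdis : ∀ i j, i ≠ j → Disjoint (K i) (K j)) (hun : ⋃ i, K i = CR F)
    (hper : ∀ i z, z ∈ K i → ChainRecOn F (K i) z → z ∈ closure (Per F)) :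
    CR F = closure (Per F) ∧ Omega F = closure (Per F) := by
  have : SecondCountableTopology N := ChartedSpace.secondCountable_of_sigmaCompact (V n) N
  let _ : MetricSpace N := TopologicalSpace.metrizableSpaceMetric N
  have h1 : CR F ⊆ closure (Per F) := by
    intro z hz
    have hzi : z ∈ ⋃ i, K i := by rw [hun]; exact hz
    obtain ⟨i, hi⟩ := mem_iUnion.1 hzi
    exact hper i z hi (chainRec_part hcl hdis hinv hun hi (conley F.continuous hz))
  have h2 : closure (Per F) ⊆ CR F := by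
    rw [(isClosed_CR F.continuous).closure_subset_iff]
    rintro p ⟨k', hk', hp⟩
    exact omega_CR F.continuous (per_mem_omega hk' hp)
  have h3 : Omega F ⊆ closure (Per F) := fun x hx => h1 (omega_CR F.continuous hx)
  have h4 : closure (Per F) ⊆ Omega F := by
    have hcl : IsClosed (Omega (F : N → N)) := by
      rw [← isOpen_compl_iff, isOpen_iff_mem_nhds]
      intro x hx
      have hx' : ¬ ∀ W : Set N, IsOpen W → x ∈ W → ∃ k : ℕ, 1 ≤ k ∧ ∃ y ∈ W, F^[k] y ∈ W := hx
      push Not at hx'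
      obtain ⟨W, hW, hxW, h⟩ := hx'
      filter_upwards [hW.mem_nhds hxW] with y hy hcon
      obtain ⟨k', hk', w, hw, hw'⟩ := hcon W hW hy
      exact h k' hk' w hw hw'
    rw [hcl.closure_subset_iff]
    rintro p ⟨k', hk', hp⟩
    exact per_mem_omega hk' hp
  exact ⟨h1.antisymm h2, h3.antisymm h4⟩

theorem cpt_main (r : ℕ∞) (hr : 1 ≤ r) {F : DiffM n N r} (hF : OmegaStable n N r F)
    {ι : Type} [Finite ι] {k : ι → ℕ} {K : ι → Set N} (hK : ∀ i, CompactTrans n F (k i) (K i))
    (hdis : ∀ i j, i ≠ j → Disjoint (K i) (K j)) (hun : ⋃ i, K i = CR F) :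
    (∀ i, (K i).Nonempty → k i = 0) ∧ CR F = closure (Per F) ∧ Omega F = closure (Per F) := by
  refine ⟨?_, ?_⟩
  · obtain ⟨U, -, hFU, h⟩ := cpt_rank_zero r hr hF
    exact fun i hi => h F hFU _ _ (hK i) hi
  · refine cr_dense (K := K) (fun i => ?_) (fun i => ?_) hdis hun fun i z hz hch =>
      cpt_mem_closure_per r hr hF (hK i) hch
    · obtain ⟨_, _, _, _, _, _, _, _, _, _, _, h⟩ := hK i
      exact h.closed
    · obtain ⟨_, _, _, _, _, _, _, _, _, _, _, h⟩ := hK i
      exact h.inv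

end Pool.Agent.R775.HL
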