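import Pool.Agent.R189.NC.Step

/-!
# Perturbations with periodic points and affine return map on a periodic nilmanifold
-/

set_option autoImplicit false
set_option linter.unusedSectionVars false

open scoped Manifold ContDiff Topology NNReal
open Filter Set Metric

universe u

namespace Pool.Agent.R775.HL

open Pool.Agent.H718R2.G Pool.Agent.W564.SC Pool.Agent.TH382.QC Pool.Agent.TH80.CLX
  Pool.Agent.TH382.HS Pool.Agent.R189.NC

variable {n : ℕ} {N : Type u} [TopologicalSpace N] [T2Space N] [CompactSpace N]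
  [ChartedSpace (V n) N] [IsManifold (𝓡 n) ∞ N] {r : ℕ∞}
  {G : Type} [Group G] [TopologicalSpace G] {d : ℕ} {ι : G →* Md d}

/-- All `F` whose return map to the orbit of `y` is `g y ↦ h φ(g) y` have small perturbations with
return map `g y ↦ h' φ(g) y` for which `y` is periodic. -/
def PQ (n : ℕ) {N : Type u} [TopologicalSpace N] [ChartedSpace (V n) N] (r : ℕ∞)
    (act : G → N → N) (y : N) (m : ℕ) (φ : G →* G) (h : G) : Prop :=
  ∀ F : DiffM n N r, (∀ g, F^[m] (act g y) = act (h * φ g) y) →
    (∀ i, 1 ≤ i → i < m → ∀ g g', F^[i] (act g y) ≠ act g' y) →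
    ∀ U : Set (DiffM n N r), IsOpen[strongTop n N r] U → F ∈ U →
      ∃ F' ∈ U, (∃ h', ∀ g, F'^[m] (act g y) = act (h' * φ g) y) ∧ ∃ k, 1 ≤ k ∧ F'^[m * k] y = y

/-- Limits along one parameter subgroups. -/
theorem pq_limit {O : Set N} {act : G → N → N} (hact : IsNilAction n N ι O act) {y : N}
    (hyO : y ∈ O) (hcoc : ∃ K : Set G, IsCompact K ∧ ∀ g, ∃ k ∈ K, act g y = act k y)
    {m : ℕ} (hm : 1 ≤ m) {h : G} {φ : G →* G} {c : ℝ → G} (hc : IsOne ι c)
    (s : ℕ → ℝ) (hs : Tendsto s atTop (𝓝 0)) (hP : ∀ i, PQ n r act y m φ (c (s i) * h)) :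
    PQ n r act y m φ h := by
  intro F hF hdis U hU hFU
  obtain ⟨H, ε, hε, hH0, hfam, hH⟩ := pert hact hyO hcoc F hm hdis hc
  obtain ⟨s', hs'⟩ : ∃ s' : ℕ → V 1, ∀ i, s' i = EuclideanSpace.single (0 : Fin 1) (s i) :=
    ⟨_, fun _ => rfl⟩
  have hs'0 : Tendsto s' atTop (𝓝 0) := by
    rw [tendsto_zero_iff_norm_tendsto_zero]
    have h1 : (fun i => ‖s' i‖) = fun i => ‖s i‖ := by
      funext i
      rw [hs', PiLp.norm_single]
    rw [h1]
    have h2 := hs.norm
    rwa [norm_zero] at h2
  have hcv : Cv (fun i => H (s' i)) F := by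
    have h1 := Cv.fam Pool.Agent.W917.SC.comp hfam hs'0
    rwa [hH0] at h1
  have hev : ∀ᶠ i in atTop, ‖s' i‖ < ε := by
    have h1 := hs'0.norm
    rw [norm_zero] at h1
    exact h1.eventually (gt_mem_nhds hε)
  obtain ⟨i, hi, hiU⟩ := (hev.and (hcv.mem hU hFU)).exists
  refine hP i (H (s' i)) ?_ ?_ U hU hiU
  · intro a
    rw [((hH (s' i) hi a).2 _ (hF a)), hs', PiLp.single_apply, if_pos rfl, mul_assoc]
  · intro i' h1 h2 g g'
    rw [(hH (s' i) hi g).1 i' h2]
    exact hdis i' h1 h2 _ _

/-- The closing property on a periodic nilmanifold with affine return map. -/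
theorem pq_all {O : Set N} {act : G → N → N} (hact : IsNilAction n N ι O act) {y : N}
    (hyO : y ∈ O) (hy : IsNilPt ι act y) {m : ℕ} (hm : 1 ≤ m) (φ : G →* G) (h : G) :
    PQ n r act y m φ h := by
  -- the stabiliser and the conjugate representation
  let Γ : Subgroup G :=
    { carrier := {g | act g y = y}
      mul_mem' := fun {a b} ha hb => by
        show act (a * b) y = y
        rw [hact.mul _ _ y hyO, show act b y = y from hb, show act a y = y from ha]
      one_mem' := hact.one y hyO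
      inv_mem' := fun {a} ha => by
        show act a⁻¹ y = y
        have h1 : act a⁻¹ (act a y) = y := by
          rw [← hact.mul _ _ y hyO, inv_mul_cancel, hact.one y hyO]
        rwa [show act a y = y from ha] at h1 }
  obtain ⟨u, ⟨D, hD, hden⟩, ⟨q, hq, hcong⟩⟩ := hy.arith
  let ι' : G →* Md d :=
    { toFun := fun g => ι (u⁻¹ * g * u)
      map_one' := by rw [mul_one, inv_mul_cancel, map_one]
      map_mul' := fun a b => by
        rw [← map_mul]
        congr 1
        group }
  have hU : ∀ g, Uni (ι' g) := fun g => hact.uni _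
  have hΓ : IsArith ι' Γ := ⟨⟨D, hD, fun g hg => hden g hg⟩, ⟨q, hq, fun g hg => hcong g hg⟩⟩
  have hst : ∀ g g', act g y = act g' y ↔ g⁻¹ * g' ∈ Γ := by
    intro g g'
    constructor
    · intro e
      show act (g⁻¹ * g') y = y
      rw [hact.mul _ _ y hyO, ← e, ← hact.mul _ _ y hyO, inv_mul_cancel, hact.one y hyO]
    · intro e
      have e' : act (g⁻¹ * g') y = y := e
      have h1 : act g' y = act (g * (g⁻¹ * g')) y := by rw [mul_inv_cancel_left]
      rw [h1, hact.mul _ _ y hyO, e']
  -- conjugates of one parameter subgroups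
  have hconj : ∀ (w : G) {c : ℝ → G}, IsOne ι c → IsOne ι (fun t => w * c t * w⁻¹) := by
    intro w c hc
    refine ⟨fun a b => ?_, fun s t => ?_⟩
    · have e : (fun t => ι (w * c t * w⁻¹) a b) =
          fun t => ∑ j, (∑ i, ι w a i * ι (c t) i j) * ι w⁻¹ j b := by
        funext t
        rw [map_mul, map_mul, Matrix.mul_apply]
        refine Finset.sum_congr rfl fun j _ => ?_
        rw [Matrix.mul_apply]
      rw [e]
      refine ContDiff.sum fun j _ => ?_
      refine ContDiff.mul ?_ contDiff_const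
      exact ContDiff.sum fun i _ => contDiff_const.mul (hc.smooth i j)
    · show w * c (s + t) * w⁻¹ = w * c s * w⁻¹ * (w * c t * w⁻¹)
      rw [hc.add]
      group
  -- the rational case
  have hrat : ∀ w : G, IsRat ι' w → PQ n r act y m φ w := by
    intro w hw F hF _
    obtain ⟨k, hk, hky⟩ := periodic_of_rat hU hΓ (F^[m]) (F.injective.iterate m)
      (fun g => act g y) hst φ w hF hw
    intro U hU hFU
    refine ⟨F, hFU, ⟨w, hF⟩, k, hk, ?_⟩
    rw [hact.one y hyO] at hky
    rw [Function.iterate_mul]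
    exact hky
  -- products
  have hprod : ∀ l : List G, (∀ g ∈ l, ∃ c : ℝ → G, IsOne ι c ∧ c 1 ∈ Γ ∧ ∃ t, c t = g) →
      ∀ w : G, IsRat ι' w → PQ n r act y m φ (w * l.prod) := by
    intro l
    induction l with
    | nil =>
      intro _ w hw
      rw [List.prod_nil, mul_one]
      exact hrat w hw
    | cons g l ih =>
      intro hl w hw
      obtain ⟨c, hc, hc1, t, ht⟩ := hl g (List.mem_cons_self ..)
      have ih' := ih fun g hg => hl g (List.mem_cons_of_mem _ hg)
      -- rational approximations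
      have hq : ∀ i : ℕ, ∃ x : ℚ, |(x : ℝ) - t| < 1 / ((i : ℝ) + 1) := by
        intro i
        have h1 : (0 : ℝ) < 1 / ((i : ℝ) + 1) := by positivity
        obtain ⟨x, hx1, hx2⟩ := exists_rat_btwn (show t < t + 1 / ((i : ℝ) + 1) by linarith)
        refine ⟨x, ?_⟩
        rw [abs_lt]
        constructor <;> linarith
      choose x hx using hq
      have hs : Tendsto (fun i : ℕ => (x i : ℝ) - t) atTop (𝓝 0) := by
        rw [tendsto_zero_iff_abs_tendsto_zero]
        exact squeeze_zero (fun i => abs_nonneg _) (fun i => (hx i).le)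
          tendsto_one_div_add_atTop_nhds_zero_nat
      refine pq_limit hact hyO hy.cocompact hm (hconj w hc) (fun i => (x i : ℝ) - t) hs fun i => ?_
      have e : w * c ((x i : ℝ) - t) * w⁻¹ * (w * (g :: l).prod) = w * c (x i) * l.prod := by
        rw [List.prod_cons, ← ht]
        have h1 : c (x i : ℝ) = c ((x i : ℝ) - t) * c t := by
          rw [← hc.add, sub_add_cancel]
        rw [h1]
        group
      show PQ n r act y m φ (w * c ((x i : ℝ) - t) * w⁻¹ * (w * (g :: l).prod))
      rw [e]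
      exact ih' _ (hw.mul (rat_one hU hΓ hc.add hc1 (x i)))
  -- `h` is a product
  have hh : h ∈ Subgroup.closure {g | ∃ c : ℝ → G, IsOne ι c ∧ act (c 1) y = y ∧ ∃ t, c t = g} := by
    rw [hy.gen]
    exact Subgroup.mem_top h
  rw [← Subgroup.mem_toSubmonoid, Subgroup.closure_toSubmonoid] at hh
  obtain ⟨l, hl, hlh⟩ := Submonoid.exists_list_of_mem_closure hh
  rw [← hlh, ← one_mul l.prod]
  refine hprod l (fun g hg => ?_) 1 IsRat.one
  rcases hl g hg with ⟨c, hc, hc1, t, ht⟩ | ⟨c, hc, hc1, t, ht⟩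
  · exact ⟨c, hc, hc1, t, ht⟩
  · refine ⟨c, hc, hc1, -t, ?_⟩
    have h1 : c (-t) * c t = 1 := by rw [← hc.add, neg_add_cancel, one_zero hc.add]
    rw [ht] at h1
    exact (eq_inv_of_mul_eq_one_left h1).trans (inv_inv g)


end Pool.Agent.R775.HL
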