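import Mathlib
import Pool.Agent.R775.HL.Defs

/-! Sets which are hyperbolic transversally to tori mapped by affine maps: definitions. -/

set_option autoImplicit false

noncomputable section

namespace Pool.Agent.R775.HL

open Pool.Agent.H718R2.G Pool.Agent.TH382.QC

universe u

/-- `R` is a smooth action of the torus `ℝᵃ/ℤᵃ` on `N`, free on the invariant open set `O`, and `F` maps
the orbits in `O` to orbits by affine maps with linear part `L`. -/
structure TorusLeaves (n : ℕ) {a : ℕ} {N : Type u} [TopologicalSpace N] [ChartedSpace (V n) N]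
    (F : N → N) (R : V a → N → N) (L : V a →ₗ[ℝ] V a) (O : Set N) : Prop where
  act : IsTorusAct a n N R
  isOpen : IsOpen O
  maps : ∀ s, ∀ y ∈ O, R s y ∈ O
  free : ∀ y ∈ O, ∀ s, R s y = y → ∀ j, ∃ l : ℤ, s j = (l : ℝ)
  affine : ∀ s, ∀ y ∈ O, F (R s y) = R (L s) (F y)

/-- The closed set `K` is invariant under `F` and hyperbolic transversally to the orbits of a torus
action, which are mapped by affine maps with linear part `L` by `F` near `K`. -/
def TorusTrans (n : ℕ) {N : Type u} [TopologicalSpace N] [ChartedSpace (V n) N] (F : N → N)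
    (a : ℕ) (L : V a →ₗ[ℝ] V a) (K : Set N) : Prop :=
  ∃ (R : V a → N → N) (O : Set N) (m : ℕ) (e : N → V m) (B : N → V m →L[ℝ] V m →L[ℝ] ℝ),
    TorusLeaves n F R L O ∧
      TransHyp (n := n) F O (fun (g : Multiplicative (V a)) y => R g.toAdd y) K R e B

end Pool.Agent.R775.HL
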