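import Mathlib
import Pool.Agent.R775.HL.Om
import Pool.Agent.R775.HL.Lin
import Pool.Agent.R775.HL.Pert
import Pool.Agent.R775.HL.TorDefs
import Pool.Agent.Y504.CO.Gen

/-! `Ω`-stability and sets which are hyperbolic transversally to tori mapped by affine maps. -/

set_option autoImplicit false

open scoped Topology ContDiff Manifold
open Set Filter Metric

noncomputable section

namespace Pool.Agent.R775.HL

open Pool.Agent.H718R2.G Pool.Agent.R774.ClStmt Pool.Agent.R774.Cl Pool.Agent.TH80.CLX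
open Pool.Agent.R189.NC Pool.Agent.TH382.QC Pool.Agent.TH80.OMS Pool.Agent.R774.OS

universe u

variable {a n : ℕ} {N : Type u} [TopologicalSpace N] [ChartedSpace (V n) N]

section torus

variable {F : N → N} {R : V a → N → N} {L : V a →ₗ[ℝ] V a} {O : Set N}

lemma TorusLeaves.nilAction (h : TorusLeaves n F R L O) :
    IsNilAction n N (tau a) O (fun (g : Multiplicative (V a)) y => R g.toAdd y) := by
  have h0 := torus_nilAction h.act
  exact ⟨h0.rep_cont, h0.rep_inj, h0.uni, h.isOpen, fun g y hy => h.maps _ y hy,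
    fun y _ => h0.one y (mem_univ _), fun g g' y _ => h0.mul g g' y (mem_univ _),
    h0.cont.mono (prod_mono_right (subset_univ _)),
    fun j c hc => (h0.smooth j c hc).mono (prod_mono_right (subset_univ _))⟩

lemma TorusLeaves.nil (h : TorusLeaves n F R L O) :
    NilLeaves n N F O (fun (g : Multiplicative (V a)) y => R g.toAdd y) :=
  ⟨⟨a + 1, tau a, h.nilAction, fun y hy => torus_nilPt h.act (h.free y hy)⟩,
    fun y hy => ⟨AddMonoidHom.toMultiplicative L.toAddMonoidHom, fun g => h.affine g.toAdd y hy⟩⟩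

lemma TorusLeaves.iter (h : TorusLeaves n F R L O) {y : N} (hy : ∀ i, F^[i] y ∈ O) (i : ℕ)
    (s : V a) : F^[i] (R s y) = R ((L ^ i) s) (F^[i] y) := by
  induction i with
  | zero => rfl
  | succ i ih =>
    rw [Function.iterate_succ_apply', ih, h.affine _ _ (hy i), Function.iterate_succ_apply' F,
      pow_succ', Module.End.mul_apply]

end torus

section deriv

/-- the orbit map in a chart -/
lemma orbit_deriv [IsManifold (𝓡 n) ∞ N] {R : V a → N → N} (hR : IsTorusAct a n N R) (y : N) :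
    ∃ J : V a →L[ℝ] V n, HasFDerivAt (fun s => (chartAt (V n) y) (R s y)) J 0 := by
  have h1 : ContMDiff (𝓡 a) (𝓡 n) ∞ (fun s : V a => R s y) :=
    hR.smooth.comp (contMDiff_id.prodMk contMDiff_const)
  have h2 : ContMDiffAt (𝓡 n) (𝓡 n) ∞ (extChartAt (𝓡 n) y) (R 0 y) := by
    rw [hR.zero]
    exact contMDiffAt_extChartAt
  have h3 : ContMDiffAt (𝓡 a) (𝓡 n) ∞ (fun s : V a => extChartAt (𝓡 n) y (R s y)) 0 :=
    ContMDiffAt.comp (g := extChartAt (𝓡 n) y) (f := fun s : V a => R s y) (0 : V a) h2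
      h1.contMDiffAt
  have h4 : ContDiffAt ℝ ∞ (fun s : V a => extChartAt (𝓡 n) y (R s y)) 0 :=
    h3.contDiffAt
  have h5 := (h4.differentiableAt (by simp)).hasFDerivAt
  exact ⟨_, h5⟩

lemma source_nhds {R : V a → N → N} (hR : IsTorusAct a n N R) (y : N) :
    ∀ᶠ s : V a in 𝓝 0, R s y ∈ (chartAt (V n) y).source := by
  have h1 : Continuous (fun s : V a => R s y) :=
    hR.smooth.continuous.comp (continuous_id.prodMk continuous_const)
  have h2 := h1.tendsto 0
  rw [hR.zero] at h2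
  exact h2.eventually ((chartAt (V n) y).open_source.mem_nhds (mem_chart_source _ _))

lemma orbit_inj [IsManifold (𝓡 n) ∞ N] [T2Space N] [CompactSpace N] {R : V a → N → N}
    (hR : IsTorusAct a n N R) {y : N}
    (hfree : ∀ s, R s y = y → ∀ j, ∃ l : ℤ, s j = (l : ℝ)) {J : V a →L[ℝ] V n}
    (hJ : HasFDerivAt (fun s => (chartAt (V n) y) (R s y)) J 0) : Function.Injective J := by
  rw [injective_iff_map_eq_zero]
  intro w hw
  obtain ⟨M, d, hd1, hd2, -⟩ := exists_embedding_euclidean_of_compact (I := 𝓡 n) (M := N)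
  let ψ := chartAt (V n) y
  have key : ∀ t : ℝ, HasDerivAt (fun t : ℝ => d (R (t • w) y)) 0 t := by
    intro t
    have e1 : ContMDiff (𝓡 n) (𝓡 n) ∞ (fun x : N => R (t • w) x) :=
      hR.smooth.comp (contMDiff_const.prodMk contMDiff_id)
    have e2 : ContMDiff (𝓡 n) 𝓘(ℝ, EuclideanSpace ℝ (Fin M)) ∞ (fun x : N => d (R (t • w) x)) :=
      hd1.comp e1
    have e3 : ContMDiffAt (𝓡 n) (𝓡 n) ∞ (extChartAt (𝓡 n) y).symm (ψ y) :=
      (contMDiffOn_extChartAt_symm (n := ∞) y).contMDiffAt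
        ((isOpen_extChartAt_target (I := 𝓡 n) y).mem_nhds
          ((extChartAt (𝓡 n) y).map_source (mem_extChartAt_source (I := 𝓡 n) y)))
    have e4 : ContMDiffAt (𝓡 n) 𝓘(ℝ, EuclideanSpace ℝ (Fin M)) ∞
        (fun v : V n => d (R (t • w) ((extChartAt (𝓡 n) y).symm v))) (ψ y) :=
      ContMDiffAt.comp (g := fun x : N => d (R (t • w) x)) (f := (extChartAt (𝓡 n) y).symm)
        (ψ y) e2.contMDiffAt e3
    have e5 := (e4.contDiffAt.differentiableAt (by simp)).hasFDerivAt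
    have e6 : HasDerivAt (fun u : ℝ => u • w) w 0 := by
      simpa using (hasDerivAt_id (0 : ℝ)).smul_const w
    have e7 : HasDerivAt (fun u : ℝ => ψ (R (u • w) y)) (J w) 0 := by
      have hJ' : HasFDerivAt (fun s => (chartAt (V n) y) (R s y)) J ((0 : ℝ) • w) := by
        rw [zero_smul]; exact hJ
      exact hJ'.comp_hasDerivAt (0 : ℝ) e6
    have e8 : ψ (R ((0 : ℝ) • w) y) = ψ y := by rw [zero_smul, hR.zero]
    rw [hw] at e7
    have e9 := HasFDerivAt.comp_hasDerivAt (l := fun v : V n =>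
      d (R (t • w) ((extChartAt (𝓡 n) y).symm v))) (f := fun u : ℝ => ψ (R (u • w) y)) (0 : ℝ)
      (by rw [e8]; exact e5) e7
    rw [map_zero] at e9
    have e10 : ∀ᶠ u : ℝ in 𝓝 0, d (R ((t + u) • w) y) =
        d (R (t • w) ((extChartAt (𝓡 n) y).symm (ψ (R (u • w) y)))) := by
      have hc : Tendsto (fun u : ℝ => u • w) (𝓝 0) (𝓝 (0 : V a)) := by
        have h0 : Continuous fun u : ℝ => u • w := by fun_prop
        have h1 := h0.tendsto 0
        rwa [zero_smul] at h1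
      filter_upwards [hc.eventually (source_nhds hR y)] with u hu
      have e11 : (extChartAt (𝓡 n) y).symm (ψ (R (u • w) y)) = R (u • w) y :=
        (extChartAt (𝓡 n) y).left_inv (by rw [extChartAt_source]; exact hu)
      rw [e11, add_smul, hR.add]
    have e12 : HasDerivAt (fun u : ℝ => d (R ((t + u) • w) y)) 0 0 :=
      e9.congr_of_eventuallyEq e10
    have e13 := HasDerivAt.comp_const_add (-t) t (f := fun u : ℝ => d (R ((t + u) • w) y))
      (by rw [neg_add_cancel]; exact e12)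
    simpa using e13
  have hconst : ∀ t : ℝ, R (t • w) y = y := by
    intro t
    have h1 := is_const_of_deriv_eq_zero (f := fun t : ℝ => d (R (t • w) y))
      (fun t => (key t).differentiableAt) (fun t => (key t).deriv) t 0
    have h2 := hd2.injective h1
    rw [h2, zero_smul, hR.zero]
  ext j
  by_contra hne
  have hne' : w j ≠ 0 := hne
  obtain ⟨l, hl⟩ := hfree _ (hconst (1 / (2 * w j))) j
  rw [PiLp.smul_apply, smul_eq_mul] at hl
  have h1 : (1 : ℝ) / (2 * w j) * w j = 1 / 2 := by field_simp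
  rw [h1] at hl
  have h2 : (1 : ℝ) = 2 * l := by linarith
  have h3 : (1 : ℤ) = 2 * l := by exact_mod_cast h2
  omega

lemma deriv_inter [IsManifold (𝓡 n) ∞ N] {R : V a → N → N} (hR : IsTorusAct a n N R) {y : N}
    {J : V a →L[ℝ] V n} (hJ : HasFDerivAt (fun s => (chartAt (V n) y) (R s y)) J 0) {f : N → N}
    {A : V a →ₗ[ℝ] V a} (hA : ∀ s, f (R s y) = R (A s) y) {D : V n →L[ℝ] V n}
    (hD : HasFDerivAt (fun v => (chartAt (V n) y) (f ((chartAt (V n) y).symm v))) D
      ((chartAt (V n) y) y)) : (D : V n →ₗ[ℝ] V n) ∘ₗ (J : V a →ₗ[ℝ] V n) =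
      (J : V a →ₗ[ℝ] V n) ∘ₗ A := by
  let ψ := chartAt (V n) y
  let A' : V a →L[ℝ] V a := LinearMap.toContinuousLinearMap A
  have h0 : ψ (R 0 y) = ψ y := by rw [hR.zero]
  have h1 : HasFDerivAt (fun s => ψ (f (ψ.symm (ψ (R s y))))) (D.comp J) 0 :=
    HasFDerivAt.comp (g := fun v => ψ (f (ψ.symm v))) (f := fun s => ψ (R s y)) (0 : V a)
      (by rw [h0]; exact hD) hJ
  have h2 : HasFDerivAt (fun s => ψ (R (A' s) y)) (J.comp A') 0 :=
    HasFDerivAt.comp (g := fun s => ψ (R s y)) (f := fun s => A' s) (0 : V a)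
      (by rw [map_zero]; exact hJ) A'.hasFDerivAt
  have h3 : (fun s => ψ (f (ψ.symm (ψ (R s y))))) =ᶠ[𝓝 0] fun s => ψ (R (A' s) y) := by
    filter_upwards [source_nhds hR y] with s hs
    have e1 : ψ.symm (ψ (R s y)) = R s y := ψ.left_inv hs
    rw [e1, hA]
    rfl
  have h4 := h1.unique (h2.congr_of_eventuallyEq h3)
  ext s
  have h5 := DFunLike.congr_fun h4 s
  exact congrArg (fun v : V n => v _) h5

end deriv

section main

variable [IsManifold (𝓡 n) ∞ N] [T2Space N] [CompactSpace N]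

omit [IsManifold (𝓡 n) ∞ N] [T2Space N] [CompactSpace N] in
lemma omegaStable_near {r : ℕ∞} {F : DiffM n N r} {U : Set (DiffM n N r)}
    (hU : IsOpen[strongTop n N r] U) (h : ∀ G ∈ U, OmegaConj (F : N → N) G) {G : DiffM n N r}
    (hG : G ∈ U) : OmegaStable n N r G := by
  refine ⟨U, hU, hG, fun G' hG' => ?_⟩
  obtain ⟨h1, hh1⟩ := h G hG
  obtain ⟨h2, hh2⟩ := h G' hG'
  refine ⟨h1.symm.trans h2, fun x y hxy => ?_⟩
  exact hh2 _ _ (conj_symm F.continuous h1 hh1 x y hxy)

/-- the return map of a periodic torus leaf of an `Ω`-stable diffeomorphism has hyperbolic linear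
part -/
theorem leaf_hyp (r : ℕ∞) (hr : 1 ≤ r) {G : DiffM n N r} (hG : OmegaStable n N r G)
    {R : V a → N → N} {L : V a →ₗ[ℝ] V a} {O : Set N} (h : TorusLeaves n G R L O) {y : N}
    (hy : ∀ i, G^[i] y ∈ O) (hq : ∃ q : ℕ, 1 ≤ q ∧ ∃ s, G^[q] y = R s y) : HypLin L := by
  classical
  have hyO : y ∈ O := hy 0
  obtain ⟨U, hU, hGU, hconj⟩ := hG
  obtain ⟨q, hqd⟩ : ∃ q, q = Nat.find hq := ⟨_, rfl⟩
  obtain ⟨hq1, p, hp⟩ : 1 ≤ q ∧ ∃ s, G^[q] y = R s y := by rw [hqd]; exact Nat.find_spec hq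
  have hmin : ∀ i, 1 ≤ i → i < q → ∀ g g' : Multiplicative (V a),
      G^[i] (R g.toAdd y) ≠ R g'.toAdd y := by
    intro i hi1 hi2 g g' hgg
    rw [hqd] at hi2
    apply Nat.find_min hq hi2
    refine ⟨hi1, g'.toAdd - (L ^ i) g.toAdd, ?_⟩
    rw [h.iter hy] at hgg
    have e1 : G^[i] y = R (-((L ^ i) g.toAdd)) (R ((L ^ i) g.toAdd) (G^[i] y)) := by
      rw [← h.act.add, neg_add_cancel, h.act.zero]
    rw [e1, hgg, ← h.act.add]
    congr 1
    abel
  let φ : Multiplicative (V a) →* Multiplicative (V a) :=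
    AddMonoidHom.toMultiplicative (L ^ q).toAddMonoidHom
  have hφ : ∀ g : Multiplicative (V a), (φ g).toAdd = (L ^ q) g.toAdd := fun g => rfl
  have hret : ∀ g : Multiplicative (V a),
      G^[q] (R g.toAdd y) = R (Multiplicative.ofAdd p * φ g).toAdd y := by
    intro g
    rw [h.iter hy, hp, ← h.act.add, toAdd_mul, toAdd_ofAdd, hφ, add_comm]
  obtain ⟨G', hG'U, ⟨h', hh'⟩, k, hk, hper⟩ := pq_all (r := r) h.nilAction hyO
    (torus_nilPt h.act (h.free y hyO)) hq1 φ (Multiplicative.ofAdd p) G hret hmin U hU hGU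
  have hst := omegaStable_near hU hconj hG'U
  have hhyp := Pool.Agent.Y504.CO.Gen.stable_hyp hr hst y
    ⟨q * k, Nat.mul_pos hq1 hk, hper⟩
  -- iterates on the leaf
  have hit : ∀ j : ℕ, ∃ b : V a, ∀ s : V a, G'^[q * j] (R s y) = R (b + (L ^ (q * j)) s) y := by
    intro j
    induction j with
    | zero => exact ⟨0, fun s => by simp⟩
    | succ j ih =>
      obtain ⟨b, hb⟩ := ih
      refine ⟨h'.toAdd + (L ^ q) b, fun s => ?_⟩
      have e1 := hh' (Multiplicative.ofAdd (b + (L ^ (q * j)) s))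
      beta_reduce at e1
      rw [toAdd_ofAdd, toAdd_mul, hφ, toAdd_ofAdd, map_add, ← Module.End.mul_apply, ← pow_add]
        at e1
      rw [Nat.mul_succ, Nat.add_comm, Function.iterate_add_apply, hb, e1]
      congr 1
      rw [add_assoc]
  obtain ⟨b, hb⟩ := hit k
  have hby : R b y = y := by
    have e1 := hb 0
    rw [h.act.zero, hper, map_zero, add_zero] at e1
    exact e1.symm
  have hA : ∀ s : V a, G'^[q * k] (R s y) = R ((L ^ (q * k)) s) y := by
    intro s
    rw [hb, add_comm, h.act.add, hby]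
  obtain ⟨D, hD, hDr⟩ := hhyp.2 (q * k) (Nat.mul_pos hq1 hk) hper (chartAt (V n) y)
    (IsManifold.chart_mem_maximalAtlas y) (mem_chart_source _ _)
  obtain ⟨J, hJ⟩ := orbit_deriv h.act y
  exact hypLin_of_inter (D := (D : V n →ₗ[ℝ] V n)) (J := (J : V a →ₗ[ℝ] V n))
    (orbit_inj h.act (h.free y hyO) hJ) (deriv_inter h.act hJ hA hD) hDr

theorem tor_hyp (r : ℕ∞) (hr : 1 ≤ r) {F : DiffM n N r} (hF : OmegaStable n N r F) :
    ∃ U : Set (DiffM n N r), IsOpen[strongTop n N r] U ∧ F ∈ U ∧ ∀ G ∈ U,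
      ∀ (a : ℕ) (L : V a →ₗ[ℝ] V a) (K : Set N), TorusTrans n G a L K → K.Nonempty →
        HypLin L := by
  obtain ⟨U, hU, hFU, hconj⟩ := hF
  refine ⟨U, hU, hFU, fun G hG a L K hK hne => ?_⟩
  have hst := omegaStable_near hU hconj hG
  obtain ⟨R, O, m, e, B, hl, h⟩ := hK
  obtain ⟨z, hzK, hz⟩ := exists_chainRec G.continuous h.closed.isCompact hne h.inv
  have hO := orbs_nil hl.nil
  have hz' := chainRecMod_of (act := fun (g : Multiplicative (V a)) y => R g.toAdd y)
    hO.one h.sub h.inv hz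
  have hG1 : ContMDiff (𝓡 n) (𝓡 n) 1 G := G.contMDiff_toFun.of_le (by exact_mod_cast hr)
  obtain ⟨y, -, hyO, q, hq, g, hg⟩ := leaf_closing hG1 hO h hz' univ_mem
  exact leaf_hyp r hr hst hl hyO ⟨q, hq, g.toAdd, hg⟩

end main

end Pool.Agent.R775.HL
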