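import Mathlib
import Pool.Agent.R775.HL.Tor
import Pool.Agent.R775.HL.Cong

/-! Density of the periodic points for toral leaves with hyperbolic linear part. -/

set_option autoImplicit false

open scoped Topology ContDiff Manifold
open Set Filter Metric

noncomputable section

namespace Pool.Agent.R775.HL

open Pool.Agent.H718R2.G Pool.Agent.R774.ClStmt Pool.Agent.R774.Cl Pool.Agent.TH80.CLX
open Pool.Agent.R189.NC Pool.Agent.TH382.QC Pool.Agent.TH80.OMS Pool.Agent.R774.OS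

universe u

variable {a n : ℕ} {N : Type u} [TopologicalSpace N] [ChartedSpace (V n) N]

/-- small integral translates of a fraction -/
lemma small_translate {a : ℕ} {ε : ℝ} (hε : 0 < ε) : ∃ M : ℕ, 1 ≤ M ∧ ∀ s : V a,
    ∃ w : Fin a → ℤ, ‖s + (M : ℝ)⁻¹ • iv w‖ < ε := by
  have h1 := (PiLp.continuous_toLp 2 (fun _ : Fin a => ℝ)).tendsto 0
  have h2 : ∀ᶠ v : Fin a → ℝ in 𝓝 0, ‖(WithLp.toLp 2 v : V a)‖ < ε := by
    have h3 := h1.norm
    have h4 : ‖(WithLp.toLp 2 (0 : Fin a → ℝ) : V a)‖ = 0 := by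
      rw [WithLp.toLp_zero, norm_zero]
    rw [h4] at h3
    exact h3.eventually (gt_mem_nhds hε)
  obtain ⟨δ, hδ, hδb⟩ := Metric.eventually_nhds_iff_ball.1 h2
  obtain ⟨M, hM⟩ := exists_nat_gt (1 / δ)
  have hM0 : (0 : ℝ) < M := lt_trans (by positivity) hM
  have hM1 : 1 ≤ M := by exact_mod_cast hM0
  refine ⟨M, hM1, fun s => ⟨fun i => -round ((M : ℝ) * s i), ?_⟩⟩
  have e : s + (M : ℝ)⁻¹ • iv (fun i => -round ((M : ℝ) * s i)) =
      WithLp.toLp 2 fun i => (M : ℝ)⁻¹ * ((M : ℝ) * s i - round ((M : ℝ) * s i)) := by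
    ext i
    rw [PiLp.add_apply, PiLp.smul_apply, iv_apply]
    push_cast
    simp only [smul_eq_mul]
    field_simp
    ring
  rw [e]
  apply hδb
  rw [mem_ball_zero_iff, pi_norm_lt_iff hδ]
  intro i
  rw [norm_mul, norm_inv, Real.norm_natCast, Real.norm_eq_abs]
  have h5 := abs_sub_round ((M : ℝ) * s i)
  calc (M : ℝ)⁻¹ * |(M : ℝ) * s i - round ((M : ℝ) * s i)| ≤ (M : ℝ)⁻¹ * (1 / 2) := by gcongr
    _ < δ := by
      rw [inv_mul_lt_iff₀ hM0]
      have h6 : 1 < M * δ := by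
        rw [div_lt_iff₀ hδ] at hM
        exact hM
      linarith

variable [IsManifold (𝓡 n) ∞ N] [T2Space N] [CompactSpace N]

theorem tor_mem_closure_per (r : ℕ∞) (hr : 1 ≤ r) {F : DiffM n N r} {L : V a →ₗ[ℝ] V a}
    {K : Set N} (hK : TorusTrans n F a L K) (hL : HypLin L) {z : N} (hz : ChainRecOn F K z) :
    z ∈ closure (Per F) := by
  obtain ⟨R, O, m, e, B, hl, h⟩ := hK
  have hzK : z ∈ K := by
    obtain ⟨q, x, _, h0, _, h2, _⟩ := hz univ isOpen_univ (fun _ => trivial)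
    rw [← h0]
    exact h2 0 (Nat.zero_le _)
  have hzO := h.sub hzK
  have hFzO := h.sub (h.inv z hzK)
  -- integrality of `L`
  have h1 : ∀ s : V a, Int' s → Int' (L s) := by
    intro s hs
    refine hl.free _ hFzO _ ?_
    rw [← hl.affine _ _ hzO, hl.act.int s hs]
  have h2 : ∀ s : V a, Int' (L s) → Int' s := by
    intro s hs
    have h3 : F (R s z) = F z := by rw [hl.affine _ _ hzO, hl.act.int _ hs]
    exact hl.free _ hzO _ (F.injective h3)
  have hO := orbs_nil hl.nil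
  have hz' := chainRecMod_of (act := fun (g : Multiplicative (V a)) y => R g.toAdd y)
    hO.one h.sub h.inv hz
  have hF1 : ContMDiff (𝓡 n) (𝓡 n) 1 F := F.contMDiff_toFun.of_le (by exact_mod_cast hr)
  rw [mem_closure_iff_nhds]
  intro W hW
  have hc : Continuous fun q : V a × N => R q.1 q.2 := hl.act.smooth.continuous
  have hc0 : ∀ᶠ q : V a × N in 𝓝 (0, z), R q.1 q.2 ∈ W := by
    have h3 := hc.tendsto (0, z)
    simp only [hl.act.zero] at h3
    exact h3.eventually hW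
  rw [nhds_prod_eq, Filter.eventually_prod_iff] at hc0
  obtain ⟨pa, hpa, pb, hpb, hab⟩ := hc0
  obtain ⟨ε, hε, hεb⟩ := Metric.eventually_nhds_iff_ball.1 hpa
  obtain ⟨y, hyW, hyO, q, hq, g, hg⟩ := leaf_closing hF1 hO h hz' hpb
  have hg' : F^[q] y = R g.toAdd y := hg
  have hit : ∀ j : ℕ, ∃ b : V a, ∀ s : V a, F^[q * j] (R s y) = R (b + (L ^ (q * j)) s) y := by
    intro j
    induction j with
    | zero => exact ⟨0, fun s => by simp⟩
    | succ j ih =>
      obtain ⟨b, hb⟩ := ih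
      refine ⟨g.toAdd + (L ^ q) b, fun s => ?_⟩
      have e1 := hl.iter hyO q (b + (L ^ (q * j)) s)
      rw [hg', ← hl.act.add, map_add, ← Module.End.mul_apply, ← pow_add] at e1
      rw [Nat.mul_succ, Nat.add_comm, Function.iterate_add_apply, hb, e1]
      congr 1
      abel
  obtain ⟨M, hM, hMs⟩ := small_translate (a := a) hε
  obtain ⟨c, hc1, hcong⟩ := pow_cong h1 h2 hM
  obtain ⟨b, hb⟩ := hit c
  have hn1 : 1 ≤ q * c := Nat.mul_pos hq hc1
  -- the fixed point equation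
  have hsurj : Function.Surjective (L ^ (q * c) - 1 : V a →ₗ[ℝ] V a) := by
    rw [← LinearMap.injective_iff_surjective, injective_iff_map_eq_zero]
    intro s hs
    refine hL.pow_fix hn1 ?_
    rw [LinearMap.sub_apply, Module.End.one_apply, sub_eq_zero] at hs
    exact hs
  obtain ⟨s₀, hs₀⟩ := hsurj (-b)
  rw [LinearMap.sub_apply, Module.End.one_apply] at hs₀
  obtain ⟨w, hw⟩ := hMs s₀
  have hint := hcong q w
  rw [Nat.mul_comm c q] at hint
  obtain ⟨l, hldef⟩ : ∃ l : V a, l = (L ^ (q * c)) ((M : ℝ)⁻¹ • iv w) - (M : ℝ)⁻¹ • iv w :=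
    ⟨_, rfl⟩
  obtain ⟨s, hsdef⟩ : ∃ s : V a, s = s₀ + (M : ℝ)⁻¹ • iv w := ⟨_, rfl⟩
  have e2 : b + (L ^ (q * c)) s = s + l := by
    rw [hldef, hsdef, map_add]
    have e3 : (L ^ (q * c)) s₀ = s₀ - b := by
      rw [sub_eq_iff_eq_add] at hs₀
      rw [hs₀]
      abel
    rw [e3]
    abel
  refine ⟨R s y, hab (hεb s ?_) hyW, q * c, hn1, ?_⟩
  · rw [mem_ball_zero_iff, hsdef]
    exact hw
  · rw [hb, e2, hl.act.add, hl.act.int l (by rw [hldef]; exact hint)]

theorem tor_main (r : ℕ∞) (hr : 1 ≤ r) {F : DiffM n N r} (hF : OmegaStable n N r F)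
    {ι : Type} [Finite ι] {a : ι → ℕ} {L : ∀ i, V (a i) →ₗ[ℝ] V (a i)} {K : ι → Set N}
    (hK : ∀ i, TorusTrans n F (a i) (L i) (K i))
    (hdis : ∀ i j, i ≠ j → Disjoint (K i) (K j)) (hun : ⋃ i, K i = CR F) :
    (∀ i, (K i).Nonempty → HypLin (L i)) ∧ CR F = closure (Per F) ∧
      Omega F = closure (Per F) := by
  have h0 : ∀ i, (K i).Nonempty → HypLin (L i) := by
    obtain ⟨U, -, hFU, h⟩ := tor_hyp r hr hF
    exact fun i hi => h F hFU _ _ _ (hK i) hi
  refine ⟨h0, ?_⟩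
  refine cr_dense (K := K) (fun i => ?_) (fun i => ?_) hdis hun fun i z hz hch =>
    tor_mem_closure_per r hr (hK i) (h0 i ⟨z, hz⟩) hch
  · obtain ⟨_, _, _, _, _, _, h⟩ := hK i
    exact h.closed
  · obtain ⟨_, _, _, _, _, _, h⟩ := hK i
    exact h.inv

end Pool.Agent.R775.HL
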